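import Pool.Agent.Helper81.MS.Core

/-!
# Arithmetic of the sum of divisors and of Euler's function
-/

set_option autoImplicit false

open Finset

namespace Pool.Agent.Helper81.MS

open ArithmeticFunction (sigma)

/-- The abundancy index. -/
noncomputable def hh (n : ℕ) : ℝ := (sigma 1 n : ℝ) / n

theorem hh_eq_sum {n : ℕ} (hn : n ≠ 0) : hh n = ∑ d ∈ n.divisors, (1 : ℝ) / d := by
  unfold hh
  rw [ArithmeticFunction.sigma_one_apply, ← Nat.sum_div_divisors n (fun d => (1 : ℝ) / d)]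
  push_cast
  rw [Finset.sum_div]
  refine Finset.sum_congr rfl fun d hd => ?_
  have hd' := Nat.dvd_of_mem_divisors hd
  have hn0 : (n : ℝ) ≠ 0 := by exact_mod_cast hn
  have hd0 : (d : ℝ) ≠ 0 := by
    have : d ≠ 0 := fun h => hn (by rw [h] at hd'; exact Nat.eq_zero_of_zero_dvd hd')
    exact_mod_cast this
  rw [Nat.cast_div hd' hd0, one_div_div]

theorem hh_mono {n m : ℕ} (h : n ∣ m) (hm : m ≠ 0) : hh n ≤ hh m := by
  have hn : n ≠ 0 := fun h0 => hm (by rw [h0] at h; exact Nat.eq_zero_of_zero_dvd h)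
  rw [hh_eq_sum hn, hh_eq_sum hm]
  apply Finset.sum_le_sum_of_subset_of_nonneg (Nat.divisors_subset_of_dvd hm h)
  intro d _ _
  positivity

theorem one_le_hh {n : ℕ} (hn : n ≠ 0) : 1 ≤ hh n := by
  have h := hh_mono (one_dvd n) hn
  have h1 : hh 1 = 1 := by
    unfold hh
    simp
  rwa [h1] at h

theorem hh_mul_coprime {a b : ℕ} (h : a.Coprime b) : hh (a * b) = hh a * hh b := by
  unfold hh
  rw [ArithmeticFunction.isMultiplicative_sigma.map_mul_of_coprime h]
  push_cast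
  rw [mul_div_mul_comm]

theorem sigma_prime {q : ℕ} (hq : q.Prime) : sigma 1 q = q + 1 := by
  rw [ArithmeticFunction.sigma_one_apply, Nat.Prime.sum_divisors hq]

theorem hh_prime {q : ℕ} (hq : q.Prime) : hh q = 1 + 1 / (q : ℝ) := by
  unfold hh
  rw [sigma_prime hq]
  have : (q : ℝ) ≠ 0 := by exact_mod_cast hq.ne_zero
  push_cast
  field_simp

theorem hh_mul_prod (D : ℕ) (T : Finset ℕ) (hT : ∀ q ∈ T, q.Prime ∧ ¬ q ∣ D) :
    hh (D * ∏ q ∈ T, q) = hh D * ∏ q ∈ T, (1 + 1 / (q : ℝ)) := by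
  induction T using Finset.induction_on with
  | empty => simp
  | insert q T hqT ih =>
    have hT' : ∀ q ∈ T, q.Prime ∧ ¬ q ∣ D := fun r hr => hT r (Finset.mem_insert_of_mem hr)
    have hq := hT q (Finset.mem_insert_self _ _)
    rw [Finset.prod_insert hqT, Finset.prod_insert hqT]
    have e : D * (q * ∏ q ∈ T, q) = (D * ∏ q ∈ T, q) * q := by ring
    have hco : (D * ∏ q ∈ T, q).Coprime q := by
      rw [Nat.coprime_mul_iff_left]
      refine ⟨(hq.1.coprime_iff_not_dvd.mpr hq.2).symm, ?_⟩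
      apply Nat.Coprime.prod_left
      intro r hr
      exact (Nat.coprime_primes (hT' r hr).1 hq.1).mpr (fun h => hqT (h ▸ hr))
    rw [e, hh_mul_coprime hco, ih hT', hh_prime hq.1]
    ring

theorem prod_primeFactors_le_hh {n : ℕ} (hn : n ≠ 0) :
    ∏ q ∈ n.primeFactors, (1 + 1 / (q : ℝ)) ≤ hh n := by
  have h1 := hh_mul_prod 1 n.primeFactors (fun q hq => by
    have hp := Nat.prime_of_mem_primeFactors hq
    exact ⟨hp, hp.not_dvd_one⟩)
  have h2 : hh 1 = 1 := by
    unfold hh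
    simp
  rw [h2, one_mul, one_mul] at h1
  rw [← h1]
  exact hh_mono (Nat.prod_primeFactors_dvd n) hn

theorem totient_eq_prod (n : ℕ) :
    (n.totient : ℝ) = n * ∏ p ∈ n.primeFactors, (1 - 1 / (p : ℝ)) := by
  have h := Nat.totient_eq_mul_prod_factors n
  have h2 : ((n.totient : ℚ) : ℝ) = ((n : ℚ) * ∏ p ∈ n.primeFactors, (1 - (p : ℚ)⁻¹) : ℚ) := by
    rw [h]
  push_cast at h2
  rw [h2]
  congr 1
  refine Finset.prod_congr rfl fun p _ => ?_
  rw [one_div]

theorem two_sigma_lt {n : ℕ} (hn : n ≠ 0) : 2 * sigma 1 n + 1 ≤ sigma 1 (2 * n) := by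
  rw [ArithmeticFunction.sigma_one_apply, ArithmeticFunction.sigma_one_apply]
  have hsub : insert 1 (n.divisors.image (fun d => 2 * d)) ⊆ (2 * n).divisors := by
    intro d hd
    rw [Nat.mem_divisors]
    refine ⟨?_, by omega⟩
    rcases Finset.mem_insert.mp hd with h | h
    · rw [h]; exact one_dvd _
    · obtain ⟨e, he, rfl⟩ := Finset.mem_image.mp h
      exact Nat.mul_dvd_mul_left 2 (Nat.dvd_of_mem_divisors he)
  have h1 := Finset.sum_le_sum_of_subset (f := fun d : ℕ => d) hsub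
  rw [Finset.sum_insert, Finset.sum_image (by intro a _ b _ h; simpa using h),
    ← Finset.mul_sum] at h1
  · omega
  · intro h
    obtain ⟨e, _, he⟩ := Finset.mem_image.mp h
    omega

theorem sigma_mul_totient_le (n : ℕ) (hn : 0 < n) : sigma 1 n * n.totient ≤ n ^ 2 := by
  induction n using Nat.recOnPosPrimePosCoprime with
  | prime_pow p n hp he =>
    rw [ArithmeticFunction.sigma_one_apply_prime_pow hp, Nat.totient_prime_pow hp he,
      Nat.geomSum_eq hp.two_le]
    have h1 : p - 1 ∣ p ^ (n + 1) - 1 := by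
      simpa using Nat.sub_one_dvd_pow_sub_one p (n + 1)
    calc (p ^ (n + 1) - 1) / (p - 1) * (p ^ (n - 1) * (p - 1))
        = (p ^ (n + 1) - 1) / (p - 1) * (p - 1) * p ^ (n - 1) := by ring
      _ = (p ^ (n + 1) - 1) * p ^ (n - 1) := by rw [Nat.div_mul_cancel h1]
      _ ≤ p ^ (n + 1) * p ^ (n - 1) := Nat.mul_le_mul_right _ (Nat.sub_le _ _)
      _ = (p ^ n) ^ 2 := by
          rw [← pow_add, ← pow_mul]
          congr 1
          omega
  | zero => omega
  | one => simp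
  | coprime a b ha hb hab iha ihb =>
    rw [ArithmeticFunction.isMultiplicative_sigma.map_mul_of_coprime hab, Nat.totient_mul hab]
    have h1 := Nat.mul_le_mul (iha (by omega)) (ihb (by omega))
    calc sigma 1 a * sigma 1 b * (a.totient * b.totient)
        = sigma 1 a * a.totient * (sigma 1 b * b.totient) := by ring
      _ ≤ a ^ 2 * b ^ 2 := h1
      _ = (a * b) ^ 2 := by ring

theorem sigma_le_sq {n : ℕ} (hn : 0 < n) : sigma 1 n ≤ n ^ 2 := by
  have h1 := sigma_mul_totient_le n hn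
  have h2 := Nat.totient_pos.mpr hn
  calc sigma 1 n = sigma 1 n * 1 := (mul_one _).symm
    _ ≤ sigma 1 n * n.totient := Nat.mul_le_mul_left _ h2
    _ ≤ n ^ 2 := h1

theorem hh_le {n : ℕ} (hn : 0 < n) : hh n ≤ n := by
  unfold hh
  have h0 : (0 : ℝ) < n := by exact_mod_cast hn
  rw [div_le_iff₀ h0]
  have h1 : (sigma 1 n : ℝ) ≤ (n : ℝ) ^ 2 := by exact_mod_cast sigma_le_sq hn
  nlinarith

/-- `σ(n) ∏ (1 - 1/p) ≤ n`. -/
theorem hh_mul_prod_le {n : ℕ} (hn : 0 < n) :
    hh n * ∏ p ∈ n.primeFactors, (1 - 1 / (p : ℝ)) ≤ 1 := by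
  have h0 : (0 : ℝ) < n := by exact_mod_cast hn
  have h1 : (sigma 1 n : ℝ) * n.totient ≤ (n : ℝ) ^ 2 := by
    exact_mod_cast sigma_mul_totient_le n hn
  rw [totient_eq_prod] at h1
  unfold hh
  rw [div_mul_eq_mul_div, div_le_one h0]
  have h2 : (n : ℝ) * ((sigma 1 n : ℝ) * ∏ p ∈ n.primeFactors, (1 - 1 / (p : ℝ))) ≤
      n * n := by nlinarith
  exact le_of_mul_le_mul_left h2 h0

/-- The crude bound by the number of primes. -/
theorem hh_le_two_pow {n y : ℕ} (hn : 0 < n) (hy : ∀ p : ℕ, p.Prime → p ∣ n → p ≤ y) :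
    hh n ≤ 2 ^ y := by
  have h1 := hh_mul_prod_le hn
  have h2 : (1 / 2 : ℝ) ^ y ≤ ∏ p ∈ n.primeFactors, (1 - 1 / (p : ℝ)) := by
    have h3 : n.primeFactors.card ≤ y := by
      have h4 : n.primeFactors ⊆ Finset.Ioc 0 y := by
        intro p hp
        rw [Finset.mem_Ioc]
        have h5 := Nat.prime_of_mem_primeFactors hp
        exact ⟨h5.pos, hy p h5 (Nat.dvd_of_mem_primeFactors hp)⟩
      have h5 := Finset.card_le_card h4
      rw [Nat.card_Ioc] at h5
      omega
    calc (1 / 2 : ℝ) ^ y ≤ (1 / 2 : ℝ) ^ n.primeFactors.card :=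
          pow_le_pow_of_le_one (by norm_num) (by norm_num) h3
      _ = ∏ p ∈ n.primeFactors, (1 / 2 : ℝ) := by rw [Finset.prod_const]
      _ ≤ _ := by
          apply Finset.prod_le_prod
          · intro p _; norm_num
          · intro p hp
            have h5 : (2 : ℝ) ≤ p := by
              exact_mod_cast (Nat.prime_of_mem_primeFactors hp).two_le
            have h6 : 1 / (p : ℝ) ≤ 1 / 2 := one_div_le_one_div_of_le (by norm_num) h5
            linarith
  have h0 : 0 ≤ hh n := by linarith [one_le_hh hn.ne']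
  have h3 : hh n * (1 / 2 : ℝ) ^ y ≤ 1 := (mul_le_mul_of_nonneg_left h2 h0).trans h1
  rw [one_div, inv_pow] at h3
  rwa [mul_inv_le_iff₀ (by positivity), one_mul] at h3

/-- The lower bound. -/
theorem lower : ∃ C : ℝ, 1 ≤ C ∧ ∀ ε : ℝ, 0 < ε → ε ≤ 1 → ∀ k m : ℕ, 0 < k → 1 < m →
    k.Coprime m → (∀ p : ℕ, p.Prime → p ∣ m → Real.exp (C * hh (2 * k.totient) / ε) < (p : ℝ)) →
    (1 - ε) * (m * (sigma 1 (2 * k.totient) : ℝ) / 2) ≤ (sigma 1 (k * m).totient : ℝ) := by
  obtain ⟨C, hC, hcore⟩ := core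
  refine ⟨C, hC, ?_⟩
  intro ε hε hε1 k m hk hm hkm hp
  have hN0 : 0 < k.totient := Nat.totient_pos.mpr hk
  set N0 := k.totient with hN0def
  have h2N0 : 2 * N0 ≠ 0 := by omega
  have hH := one_le_hh h2N0
  -- the primes of `m` are odd
  have hm3 : 2 < m := by
    obtain ⟨p, hpp, hpm⟩ := Nat.exists_prime_and_dvd (show m ≠ 1 by omega)
    have h1 := hp p hpp hpm
    have h2 : (1 : ℝ) ≤ C * hh (2 * N0) / ε := by
      rw [le_div_iff₀ hε]
      nlinarith
    have h3 := Real.add_one_le_exp (C * hh (2 * N0) / ε)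
    have h4 : (2 : ℝ) < p := by linarith
    have h5 : 2 < p := by exact_mod_cast h4
    exact h5.trans_le (Nat.le_of_dvd (by omega) hpm)
  obtain ⟨t, ht⟩ : 2 ∣ m.totient := (Nat.totient_even hm3).two_dvd
  have hmt : 0 < m.totient := Nat.totient_pos.mpr (by omega)
  set N := (k * m).totient with hN
  have hNmul : N = N0 * m.totient := Nat.totient_mul hkm
  have hNpos : 0 < N := by rw [hNmul]; positivity
  have hdvd : 2 * N0 ∣ N := by
    rw [hNmul, ht]
    exact ⟨t, by ring⟩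
  -- primes
  have hsub : (2 * N0).primeFactors ⊆ N.primeFactors := Nat.primeFactors_mono hdvd hNpos.ne'
  set S' := N.primeFactors \ (2 * N0).primeFactors with hS'
  set B : ℝ := ∏ q ∈ S', (1 + 1 / (q : ℝ)) with hB
  have hB1 : 1 ≤ B := one_le_prod S'
  have hS'p : ∀ q ∈ S', q.Prime ∧ ¬ q ∣ 2 * N0 := by
    intro q hq
    rw [hS', Finset.mem_sdiff] at hq
    have h1 := Nat.prime_of_mem_primeFactors hq.1
    exact ⟨h1, fun h => hq.2 (Nat.mem_primeFactors.mpr ⟨h1, h, h2N0⟩)⟩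
  have hprodS : ∏ q ∈ N.primeFactors, (1 + 1 / (q : ℝ)) ≤ hh (2 * N0) * B := by
    rw [← Finset.prod_sdiff hsub, mul_comm (hh (2 * N0))]
    apply mul_le_mul_of_nonneg_left (prod_primeFactors_le_hh h2N0) (by linarith)
  have hmain := hcore ε hε hε1 (hh (2 * N0)) B hH hB1 N.primeFactors hprodS m.primeFactors (by
    intro p hpm
    have h1 := Nat.prime_of_mem_primeFactors hpm
    have h2 := Nat.dvd_of_mem_primeFactors hpm
    refine ⟨h1, hp p h1 h2, ?_⟩
    intro q hq hqp
    rw [Nat.mem_primeFactors]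
    refine ⟨hq, ?_, hNpos.ne'⟩
    have h3 : p.totient ∣ m.totient := Nat.totient_dvd_of_dvd h2
    rw [Nat.totient_prime h1] at h3
    rw [hNmul]
    exact (hqp.trans h3).trans (Dvd.intro_left _ rfl))
  -- the abundancy index of `N`
  have hhN : hh (2 * N0) * B ≤ hh N := by
    rw [hB, ← hh_mul_prod (2 * N0) S' hS'p]
    apply hh_mono _ hNpos.ne'
    apply Nat.Coprime.mul_dvd_of_dvd_of_dvd
    · apply Nat.Coprime.prod_right
      intro q hq
      exact ((hS'p q hq).1.coprime_iff_not_dvd.mpr (hS'p q hq).2).symm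
    · exact hdvd
    · apply Finset.prod_primes_dvd
      · intro q hq
        exact (hS'p q hq).1.prime
      · intro q hq
        rw [hS', Finset.mem_sdiff] at hq
        exact Nat.dvd_of_mem_primeFactors hq.1
  have e1 : (sigma 1 N : ℝ) = N * hh N := by
    unfold hh
    have : (N : ℝ) ≠ 0 := by exact_mod_cast hNpos.ne'
    field_simp
  have e2 : (sigma 1 (2 * N0) : ℝ) = 2 * N0 * hh (2 * N0) := by
    unfold hh
    have : (N0 : ℝ) ≠ 0 := by exact_mod_cast hN0.ne'
    push_cast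
    field_simp
  have e3 : (N : ℝ) = N0 * (m * ∏ p ∈ m.primeFactors, (1 - 1 / (p : ℝ))) := by
    rw [← totient_eq_prod, hNmul]
    push_cast
    rfl
  have hN0r : (0 : ℝ) < N0 := by exact_mod_cast hN0
  have hmr : (0 : ℝ) < m := by
    have : 0 < m := by omega
    exact_mod_cast this
  have hprod0 : 0 ≤ ∏ p ∈ m.primeFactors, (1 - 1 / (p : ℝ)) := by
    apply Finset.prod_nonneg
    intro p hpm
    have h1 : (1 : ℝ) ≤ p := by
      exact_mod_cast (Nat.prime_of_mem_primeFactors hpm).one_le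
    have h2 : 1 / (p : ℝ) ≤ 1 := by
      rw [div_le_one (by linarith)]
      exact h1
    linarith
  rw [e1, e2]
  calc (1 - ε) * (m * (2 * N0 * hh (2 * N0)) / 2) = (N0 * m * hh (2 * N0)) * (1 - ε) := by ring
    _ ≤ (N0 * m * hh (2 * N0)) * (B * ∏ p ∈ m.primeFactors, (1 - 1 / (p : ℝ))) := by
        apply mul_le_mul_of_nonneg_left hmain (by positivity)
    _ = N * (hh (2 * N0) * B) := by rw [e3]; ring
    _ ≤ N * hh N := mul_le_mul_of_nonneg_left hhN (by positivity)

end Pool.Agent.Helper81.MS
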