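import Pool.Agent.Helper81.MS.Growth

/-!
# The squarefree integers composed of primes up to 43
-/

set_option autoImplicit false

open Finset

namespace Pool.Agent.Helper81.MS

open ArithmeticFunction (sigma)

theorem sigma_five (a b c d e : ℕ) : sigma 1 (2 ^ a * 3 ^ b * 5 ^ c * 7 ^ d * 11 ^ e) =
    (2 ^ (a + 1) - 1) * ((3 ^ (b + 1) - 1) / 2) * ((5 ^ (c + 1) - 1) / 4) *
      ((7 ^ (d + 1) - 1) / 6) * ((11 ^ (e + 1) - 1) / 10) := by
  have hm := ArithmeticFunction.isMultiplicative_sigma (k := 1)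
  have h23 : Nat.Coprime (2 ^ a) (3 ^ b) := Nat.Coprime.pow _ _ (by norm_num)
  have h5 : Nat.Coprime (2 ^ a * 3 ^ b) (5 ^ c) :=
    Nat.Coprime.mul_left (Nat.Coprime.pow _ _ (by norm_num)) (Nat.Coprime.pow _ _ (by norm_num))
  have h7 : Nat.Coprime (2 ^ a * 3 ^ b * 5 ^ c) (7 ^ d) :=
    Nat.Coprime.mul_left (Nat.Coprime.mul_left (Nat.Coprime.pow _ _ (by norm_num))
      (Nat.Coprime.pow _ _ (by norm_num))) (Nat.Coprime.pow _ _ (by norm_num))
  have h11 : Nat.Coprime (2 ^ a * 3 ^ b * 5 ^ c * 7 ^ d) (11 ^ e) :=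
    Nat.Coprime.mul_left (Nat.Coprime.mul_left (Nat.Coprime.mul_left
      (Nat.Coprime.pow _ _ (by norm_num)) (Nat.Coprime.pow _ _ (by norm_num)))
      (Nat.Coprime.pow _ _ (by norm_num))) (Nat.Coprime.pow _ _ (by norm_num))
  rw [hm.map_mul_of_coprime h11, hm.map_mul_of_coprime h7, hm.map_mul_of_coprime h5,
    hm.map_mul_of_coprime h23]
  rw [ArithmeticFunction.sigma_one_apply_prime_pow (by norm_num : Nat.Prime 2),
    ArithmeticFunction.sigma_one_apply_prime_pow (by norm_num : Nat.Prime 3),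
    ArithmeticFunction.sigma_one_apply_prime_pow (by norm_num : Nat.Prime 5),
    ArithmeticFunction.sigma_one_apply_prime_pow (by norm_num : Nat.Prime 7),
    ArithmeticFunction.sigma_one_apply_prime_pow (by norm_num : Nat.Prime 11),
    Nat.geomSum_eq (by norm_num : 2 ≤ 2), Nat.geomSum_eq (by norm_num : 2 ≤ 3),
    Nat.geomSum_eq (by norm_num : 2 ≤ 5), Nat.geomSum_eq (by norm_num : 2 ≤ 7),
    Nat.geomSum_eq (by norm_num : 2 ≤ 11)]
  simp

/-- The value `φ(k)` for the squarefree `k` with the given prime factors. -/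
theorem phi_form (b1 b2 b3 b4 b5 b6 b7 b8 b9 b10 b11 b12 b13 b14 : Bool) :
    (if b1 = true then 1 else 1) * ((if b2 = true then 2 else 1) * ((if b3 = true then 4 else 1) *
    ((if b4 = true then 6 else 1) * ((if b5 = true then 10 else 1) *
    ((if b6 = true then 12 else 1) * ((if b7 = true then 16 else 1) *
    ((if b8 = true then 18 else 1) * ((if b9 = true then 22 else 1) *
    ((if b10 = true then 28 else 1) * ((if b11 = true then 30 else 1) *
    ((if b12 = true then 36 else 1) * ((if b13 = true then 40 else 1) *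
    (if b14 = true then 42 else 1))))))))))))) =
    2 ^ (b2.toNat + 2 * b3.toNat + b4.toNat + b5.toNat + 2 * b6.toNat + 4 * b7.toNat + b8.toNat +
      b9.toNat + 2 * b10.toNat + b11.toNat + 2 * b12.toNat + 3 * b13.toNat + b14.toNat) *
    3 ^ (b4.toNat + b6.toNat + 2 * b8.toNat + b11.toNat + 2 * b12.toNat + b14.toNat) *
    5 ^ (b5.toNat + b11.toNat + b13.toNat) * 7 ^ (b10.toNat + b14.toNat) * 11 ^ b9.toNat := by
  have e2 : (if b2 = true then 2 else 1) = 2 ^ b2.toNat := by cases b2 <;> rfl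
  have e3 : (if b3 = true then 4 else 1) = 2 ^ (2 * b3.toNat) := by cases b3 <;> rfl
  have e4 : (if b4 = true then 6 else 1) = 2 ^ b4.toNat * 3 ^ b4.toNat := by cases b4 <;> rfl
  have e5 : (if b5 = true then 10 else 1) = 2 ^ b5.toNat * 5 ^ b5.toNat := by cases b5 <;> rfl
  have e6 : (if b6 = true then 12 else 1) = 2 ^ (2 * b6.toNat) * 3 ^ b6.toNat := by
    cases b6 <;> rfl
  have e7 : (if b7 = true then 16 else 1) = 2 ^ (4 * b7.toNat) := by cases b7 <;> rfl
  have e8 : (if b8 = true then 18 else 1) = 2 ^ b8.toNat * 3 ^ (2 * b8.toNat) := by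
    cases b8 <;> rfl
  have e9 : (if b9 = true then 22 else 1) = 2 ^ b9.toNat * 11 ^ b9.toNat := by cases b9 <;> rfl
  have e10 : (if b10 = true then 28 else 1) = 2 ^ (2 * b10.toNat) * 7 ^ b10.toNat := by
    cases b10 <;> rfl
  have e11 : (if b11 = true then 30 else 1) = 2 ^ b11.toNat * 3 ^ b11.toNat * 5 ^ b11.toNat := by
    cases b11 <;> rfl
  have e12 : (if b12 = true then 36 else 1) = 2 ^ (2 * b12.toNat) * 3 ^ (2 * b12.toNat) := by
    cases b12 <;> rfl
  have e13 : (if b13 = true then 40 else 1) = 2 ^ (3 * b13.toNat) * 5 ^ b13.toNat := by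
    cases b13 <;> rfl
  have e14 : (if b14 = true then 42 else 1) = 2 ^ b14.toNat * 3 ^ b14.toNat * 7 ^ b14.toNat := by
    cases b14 <;> rfl
  rw [ite_self, e2, e3, e4, e5, e6, e7, e8, e9, e10, e11, e12, e13, e14]
  simp only [pow_add]
  ring

/-- The finite check. -/
theorem check_all : ∀ b1 b2 b3 b4 b5 b6 b7 b8 b9 b10 b11 b12 b13 b14 : Bool,
    (if b1 = true then 2 else 1) * ((if b2 = true then 3 else 1) * ((if b3 = true then 5 else 1) *
    ((if b4 = true then 7 else 1) * ((if b5 = true then 11 else 1) *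
    ((if b6 = true then 13 else 1) * ((if b7 = true then 17 else 1) *
    ((if b8 = true then 19 else 1) * ((if b9 = true then 23 else 1) *
    ((if b10 = true then 29 else 1) * ((if b11 = true then 31 else 1) *
    ((if b12 = true then 37 else 1) * ((if b13 = true then 41 else 1) *
    (if b14 = true then 43 else 1))))))))))))) ≤
    2 * ((2 ^ (b2.toNat + 2 * b3.toNat + b4.toNat + b5.toNat + 2 * b6.toNat + 4 * b7.toNat +
      b8.toNat + b9.toNat + 2 * b10.toNat + b11.toNat + 2 * b12.toNat + 3 * b13.toNat +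
      b14.toNat + 1) - 1) *
    ((3 ^ (b4.toNat + b6.toNat + 2 * b8.toNat + b11.toNat + 2 * b12.toNat + b14.toNat + 1) - 1) / 2) *
    ((5 ^ (b5.toNat + b11.toNat + b13.toNat + 1) - 1) / 4) *
    ((7 ^ (b10.toNat + b14.toNat + 1) - 1) / 6) * ((11 ^ (b9.toNat + 1) - 1) / 10)) := by
  decide +kernel

theorem check_squarefree (k : ℕ) (hk : Squarefree k)
    (hp : ∀ p : ℕ, p.Prime → p ∣ k → p ≤ 46) : k ≤ 2 * sigma 1 k.totient := by
  have hk0 : k ≠ 0 := hk.ne_zero
  have hpf : k.primeFactors =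
      ({2, 3, 5, 7, 11, 13, 17, 19, 23, 29, 31, 37, 41, 43} : Finset ℕ).filter (fun p => p ∣ k) := by
    ext p
    rw [Nat.mem_primeFactors, Finset.mem_filter]
    constructor
    · rintro ⟨h1, h2, _⟩
      have h3 := hp p h1 h2
      refine ⟨?_, h2⟩
      have key : ∀ q : ℕ, q ≤ 46 → q.Prime →
          q ∈ ({2, 3, 5, 7, 11, 13, 17, 19, 23, 29, 31, 37, 41, 43} : Finset ℕ) := by decide
      exact key p h3 h1
    · rintro ⟨h1, h2⟩
      have key : ∀ q ∈ ({2, 3, 5, 7, 11, 13, 17, 19, 23, 29, 31, 37, 41, 43} : Finset ℕ), q.Prime := by decide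
      exact ⟨key p h1, h2, hk0⟩
  have hkprod := Nat.prod_primeFactors_of_squarefree hk
  have hφ : k.totient = ∏ p ∈ k.primeFactors, (p - 1) := by
    have h1 := Nat.totient_mul_prod_primeFactors k
    rw [hkprod, Nat.mul_comm] at h1
    exact Nat.eq_of_mul_eq_mul_left (Nat.pos_of_ne_zero hk0) h1
  rw [hpf, Finset.prod_filter] at hkprod hφ
  repeat rw [Finset.prod_insert (by decide)] at hkprod hφ
  rw [Finset.prod_singleton] at hkprod hφ
  have h1 := check_all (decide (2 ∣ k)) (decide (3 ∣ k)) (decide (5 ∣ k)) (decide (7 ∣ k))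
    (decide (11 ∣ k)) (decide (13 ∣ k)) (decide (17 ∣ k)) (decide (19 ∣ k)) (decide (23 ∣ k))
    (decide (29 ∣ k)) (decide (31 ∣ k)) (decide (37 ∣ k)) (decide (41 ∣ k)) (decide (43 ∣ k))
  rw [← sigma_five, ← phi_form (decide (2 ∣ k))] at h1
  simp only [decide_eq_true_eq] at h1
  simp only [Nat.reduceSub] at hφ
  rw [hkprod, ← hφ] at h1
  exact h1

end Pool.Agent.Helper81.MS
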