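import Pool.Agent.Helper81.MS.Dyadic

/-!
# The analytic core of the lower bound
-/

set_option autoImplicit false

open Finset Real

namespace Pool.Agent.Helper81.MS

open Pool.Agent.Helper44

/-- Let `S` be a finite set of primes with `∏ (1 + 1/q) ≤ H B` and let `M` be a finite set of primes
`p > exp (C H / ε)` such that all the primes of `p - 1` lie in `S`. Then `B ∏ (1 - 1/p) ≥ 1 - ε`. -/
theorem core : ∃ C : ℝ, 1 ≤ C ∧ ∀ ε : ℝ, 0 < ε → ε ≤ 1 → ∀ H B : ℝ, 1 ≤ H → 1 ≤ B →
    ∀ S : Finset ℕ, ∏ q ∈ S, (1 + 1 / (q : ℝ)) ≤ H * B → ∀ M : Finset ℕ,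
    (∀ p ∈ M, p.Prime ∧ Real.exp (C * H / ε) < (p : ℝ) ∧ ∀ q : ℕ, q.Prime → q ∣ p - 1 → q ∈ S) →
    1 - ε ≤ B * ∏ p ∈ M, (1 - 1 / (p : ℝ)) := by
  classical
  obtain ⟨C1, hC1, hI⟩ := sum_inv_le
  obtain ⟨C2, hC2, hII⟩ := mertens_upper
  obtain ⟨C3, hC3, hIII⟩ := sum_inv_sq_le
  set B1 : ℝ := Real.exp (1 + 2 * C3) with hB1
  have hB1pos : 0 < B1 := Real.exp_pos _
  have hB1one : 1 ≤ B1 := Real.one_le_exp (by linarith)
  set C : ℝ := 1 + 2 * C1 * B1 + C1 * Real.exp (C2 + 1 + 2 * C3) with hCdef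
  have hC : 1 ≤ C := by
    have : 0 ≤ 2 * C1 * B1 + C1 * Real.exp (C2 + 1 + 2 * C3) := by positivity
    linarith
  refine ⟨C, hC, ?_⟩
  intro ε hε hε1 H B hH hB S hS M hM
  have hC0 : 0 < C := by linarith
  have hH0 : 0 < H := by linarith
  have hB0 : 0 < B := by linarith
  set L : ℝ := C * H / ε with hL
  have hL1 : 1 ≤ L := by
    rw [hL, le_div_iff₀ hε]
    nlinarith
  have hL0 : 0 < L := by linarith
  have hy2 : (2 : ℝ) ≤ Real.exp L := by
    have h1 := Real.add_one_le_exp L
    linarith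
  have hp : ∀ p ∈ M, (0 : ℝ) ≤ 1 / (p : ℝ) ∧ 1 / (p : ℝ) ≤ 1 / 2 := by
    intro p hp
    have h1 : (2 : ℝ) ≤ p := by exact_mod_cast (hM p hp).1.two_le
    exact ⟨by positivity, one_div_le_one_div_of_le (by norm_num) h1⟩
  set T : ℝ := ∑ p ∈ M, (1 : ℝ) / p with hT
  have hT0 : 0 ≤ T := Finset.sum_nonneg fun p _ => by positivity
  have hT1 : T ≤ C1 * (H * B) / L := by
    have h1 := hI S (Real.exp L) hy2 M hM
    rw [Real.log_exp] at h1
    refine h1.trans ?_
    apply div_le_div_of_nonneg_right _ hL0.le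
    exact mul_le_mul_of_nonneg_left hS hC1.le
  -- lower bounds for the product
  have hP1 : 1 - 2 * T ≤ ∏ p ∈ M, (1 - 1 / (p : ℝ)) := by
    calc 1 - 2 * T ≤ Real.exp (-(2 * T)) := by
          have := Real.add_one_le_exp (-(2 * T))
          linarith
      _ = ∏ p ∈ M, Real.exp (-(2 * (1 / (p : ℝ)))) := by
          rw [← Real.exp_sum, Finset.sum_neg_distrib, ← Finset.mul_sum]
      _ ≤ _ := by
          apply Finset.prod_le_prod
          · intro p _; exact (Real.exp_pos _).le
          · intro p hpM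
            exact one_sub_ge_exp (hp p hpM).1 (hp p hpM).2
  have hP2 : Real.exp (-(T + 2 * C3)) ≤ ∏ p ∈ M, (1 - 1 / (p : ℝ)) := by
    calc Real.exp (-(T + 2 * C3)) ≤
          Real.exp (-∑ p ∈ M, ((1 : ℝ) / p + 2 * ((1 : ℝ) / p) ^ 2)) := by
          apply Real.exp_le_exp.mpr
          rw [Finset.sum_add_distrib, ← Finset.mul_sum]
          have := hIII M
          linarith
      _ = ∏ p ∈ M, Real.exp (-((1 : ℝ) / p + 2 * ((1 : ℝ) / p) ^ 2)) := by
          rw [← Finset.sum_neg_distrib, Real.exp_sum]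
      _ ≤ _ := by
          apply Finset.prod_le_prod
          · intro p _; exact (Real.exp_pos _).le
          · intro p hpM
            exact one_sub_ge_exp' (hp p hpM).1 (hp p hpM).2
  rcases le_or_gt B B1 with hBB | hBB
  · -- small `B`
    have h1 : 2 * T * B1 ≤ ε * B := by
      have h2 : T * L ≤ C1 * (H * B) := by
        rwa [le_div_iff₀ hL0] at hT1
      have h3 : T * (C * H) ≤ C1 * (H * B) * ε := by
        have e : T * L * ε = T * (C * H) := by rw [hL]; field_simp
        rw [← e]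
        exact mul_le_mul_of_nonneg_right h2 hε.le
      have h4 : T * C ≤ C1 * B * ε := by
        have h5 : H * (T * C) ≤ H * (C1 * B * ε) := by linarith
        exact le_of_mul_le_mul_left h5 hH0
      have h5 : T * (2 * C1 * B1) ≤ T * C := by
        apply mul_le_mul_of_nonneg_left _ hT0
        have : 0 ≤ C1 * Real.exp (C2 + 1 + 2 * C3) := by positivity
        linarith
      have h6 : C1 * (2 * T * B1) ≤ C1 * (ε * B) := by linarith
      exact le_of_mul_le_mul_left h6 hC1
    have h2 : 2 * T * B ≤ ε * B := by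
      refine le_trans ?_ h1
      apply mul_le_mul_of_nonneg_left hBB (by positivity)
    have h3 : 2 * T * B1 ≤ ε * B1 * B := by
      refine h1.trans ?_
      have : 0 ≤ ε * B := by positivity
      nlinarith
    -- `2 T B ≤ ε + (B - 1)`
    have h4 : 2 * T ≤ ε * B / B1 := by
      rw [le_div_iff₀ hB1pos]; exact h1
    have h5 : 2 * T * B ≤ ε * B := h2
    have h6 : 2 * T * B ≤ ε + (B - 1) := by
      have h7 : ε * B = ε + ε * (B - 1) := by ring
      have h8 : ε * (B - 1) ≤ 1 * (B - 1) := mul_le_mul_of_nonneg_right hε1 (by linarith)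
      linarith
    calc 1 - ε ≤ B * (1 - 2 * T) := by nlinarith
      _ ≤ _ := mul_le_mul_of_nonneg_left hP1 hB0.le
  · -- large `B`
    rcases le_or_gt (C1 * (H * B)) L with hc | hc
    · have h1 : T ≤ 1 := by
        refine hT1.trans ?_
        rw [div_le_one hL0]
        exact hc
      calc 1 - ε ≤ 1 := by linarith
        _ = B1 * Real.exp (-(1 + 2 * C3)) := by
            rw [hB1, ← Real.exp_add]
            simp
        _ ≤ B * Real.exp (-(T + 2 * C3)) := by
            apply mul_le_mul hBB.le _ (Real.exp_pos _).le hB0.le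
            apply Real.exp_le_exp.mpr
            linarith
        _ ≤ _ := mul_le_mul_of_nonneg_left hP2 hB0.le
    · set Lz : ℝ := C1 * (H * B) with hLz
      have hLz0 : 0 < Lz := by positivity
      have h1 : T ≤ Real.log (Lz / L) + C2 + 1 := by
        rw [hT, ← Finset.sum_filter_add_sum_filter_not M (fun p : ℕ => (p : ℝ) ≤ Real.exp Lz)]
        have h2 := hII (Real.exp L) (Real.exp Lz) hy2 (Real.exp_le_exp.mpr hc.le)
          (M.filter (fun p : ℕ => (p : ℝ) ≤ Real.exp Lz)) (by
            intro p hp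
            have h3 := Finset.mem_filter.mp hp
            exact ⟨(hM p h3.1).1, (hM p h3.1).2.1, h3.2⟩)
        have h3 := hI S (Real.exp Lz) (hy2.trans (Real.exp_le_exp.mpr hc.le))
          (M.filter (fun p : ℕ => ¬ (p : ℝ) ≤ Real.exp Lz)) (by
            intro p hp
            have h3 := Finset.mem_filter.mp hp
            exact ⟨(hM p h3.1).1, not_le.mp h3.2, (hM p h3.1).2.2⟩)
        rw [Real.log_exp, Real.log_exp] at h2
        rw [Real.log_exp] at h3
        have h4 : C1 * (∏ q ∈ S, (1 + 1 / (q : ℝ))) / Lz ≤ 1 := by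
          rw [div_le_one hLz0]
          exact mul_le_mul_of_nonneg_left hS hC1.le
        linarith
      have h2 : Real.exp (-(Real.log (Lz / L) + C2 + 1 + 2 * C3)) =
          (L / Lz) * Real.exp (-(C2 + 1 + 2 * C3)) := by
        have e : -(Real.log (Lz / L) + C2 + 1 + 2 * C3) =
            -Real.log (Lz / L) + -(C2 + 1 + 2 * C3) := by ring
        rw [e, Real.exp_add, Real.exp_neg, Real.exp_log (by positivity), inv_div]
      have h3 : Real.exp (-(C2 + 1 + 2 * C3)) * Real.exp (C2 + 1 + 2 * C3) = 1 := by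
        rw [← Real.exp_add, show -(C2 + 1 + 2 * C3) + (C2 + 1 + 2 * C3) = 0 by ring, Real.exp_zero]
      have h4 : B * (L / Lz) = C / (C1 * ε) := by
        rw [hL, hLz]
        field_simp
      have h5 : 1 ≤ C / (C1 * ε) * Real.exp (-(C2 + 1 + 2 * C3)) := by
        have h6 : C1 * Real.exp (C2 + 1 + 2 * C3) ≤ C := by
          have : 0 ≤ 1 + 2 * C1 * B1 := by positivity
          linarith
        have h7 : C1 ≤ C * Real.exp (-(C2 + 1 + 2 * C3)) := by
          calc C1 = C1 * Real.exp (C2 + 1 + 2 * C3) * Real.exp (-(C2 + 1 + 2 * C3)) := by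
                rw [mul_assoc, mul_comm (Real.exp (C2 + 1 + 2 * C3)), h3, mul_one]
            _ ≤ C * Real.exp (-(C2 + 1 + 2 * C3)) := by
                apply mul_le_mul_of_nonneg_right h6 (Real.exp_pos _).le
        rw [div_mul_eq_mul_div, le_div_iff₀ (by positivity), one_mul]
        calc C1 * ε ≤ C1 * 1 := mul_le_mul_of_nonneg_left hε1 hC1.le
          _ = C1 := mul_one _
          _ ≤ _ := h7
      calc 1 - ε ≤ 1 := by linarith
        _ ≤ C / (C1 * ε) * Real.exp (-(C2 + 1 + 2 * C3)) := h5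
        _ = B * Real.exp (-(Real.log (Lz / L) + C2 + 1 + 2 * C3)) := by
            rw [h2, ← mul_assoc, h4]
        _ ≤ B * Real.exp (-(T + 2 * C3)) := by
            apply mul_le_mul_of_nonneg_left _ hB0.le
            apply Real.exp_le_exp.mpr
            linarith
        _ ≤ _ := mul_le_mul_of_nonneg_left hP2 hB0.le

end Pool.Agent.Helper81.MS
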