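import Pool.Agent.Helper81.MS.Sieve

/-!
# Sums of reciprocals of primes `p` such that all primes of `p - 1` lie in a finite set
-/

set_option autoImplicit false

open Finset Real

namespace Pool.Agent.Helper81.MS

open Pool.Agent.Helper44

theorem telescope {a b : ℝ} (ha : 0 < a) (hb : 0 < b) (J : ℕ) :
    1 / (a + (J + 1) * b) ^ 2 ≤ 1 / b * (1 / (a + J * b) - 1 / (a + (J + 1) * b)) := by
  have h1 : 0 < a + J * b := by positivity
  have h2 : 0 < a + (J + 1) * b := by positivity
  have e : 1 / b * (1 / (a + J * b) - 1 / (a + (J + 1) * b)) = 1 / ((a + J * b) * (a + (J + 1) * b)) := by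
    field_simp
    ring
  rw [e]
  apply one_div_le_one_div_of_le (by positivity)
  rw [sq]
  apply mul_le_mul_of_nonneg_right _ h2.le
  nlinarith

theorem sum_inv_le : ∃ C : ℝ, 0 < C ∧ ∀ (S : Finset ℕ) (z : ℝ), 2 ≤ z → ∀ M : Finset ℕ,
    (∀ p ∈ M, p.Prime ∧ z < (p : ℝ) ∧ ∀ q : ℕ, q.Prime → q ∣ p - 1 → q ∈ S) →
    ∑ p ∈ M, (1 : ℝ) / p ≤ C * (∏ q ∈ S, (1 + 1 / (q : ℝ))) / Real.log z := by
  classical
  obtain ⟨C0, hC0, hcount⟩ := count_le
  have hl2 : 0 < Real.log 2 := Real.log_pos (by norm_num)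
  refine ⟨2 * C0 / Real.log 2, by positivity, ?_⟩
  intro S z hz M hM
  have hA := one_le_prod S
  set A := ∏ q ∈ S, (1 + 1 / (q : ℝ)) with hAdef
  have hA0 : 0 < A := by linarith
  have hz0 : 0 < z := by linarith
  have hlz : 0 < Real.log z := Real.log_pos (by linarith)
  have key : ∀ J : ℕ, ∀ M' ⊆ M, (∀ p ∈ M', (p : ℝ) ≤ 2 ^ J * z) →
      ∑ p ∈ M', (1 : ℝ) / p ≤ 2 * C0 * A * (1 / Real.log 2 *
        (1 / Real.log z - 1 / (Real.log z + J * Real.log 2))) := by
    intro J
    induction J with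
    | zero =>
      intro M' hM' hle
      have : M' = ∅ := by
        rw [Finset.eq_empty_iff_forall_notMem]
        intro p hp
        have h1 := (hM p (hM' hp)).2.1
        have h2 := hle p hp
        rw [pow_zero, one_mul] at h2
        linarith
      rw [this]
      simp
    | succ J ih =>
      intro M' hM' hle
      rw [← Finset.sum_filter_add_sum_filter_not M' (fun p : ℕ => (p : ℝ) ≤ 2 ^ J * z)]
      have h1 := ih (M'.filter (fun p : ℕ => (p : ℝ) ≤ 2 ^ J * z))
        ((Finset.filter_subset _ _).trans hM') (fun p hp => (Finset.mem_filter.mp hp).2)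
      have hpos : (0 : ℝ) < 2 ^ J * z := by positivity
      have hx2 : (2 : ℝ) ≤ 2 ^ (J + 1) * z := by
        have : (1 : ℝ) ≤ 2 ^ (J + 1) := one_le_pow₀ (by norm_num)
        nlinarith
      have h2 : ∑ p ∈ M'.filter (fun p : ℕ => ¬ (p : ℝ) ≤ 2 ^ J * z), (1 : ℝ) / p ≤
          2 * C0 * A * (1 / (Real.log z + (J + 1) * Real.log 2) ^ 2) := by
        have h3 : ∑ p ∈ M'.filter (fun p : ℕ => ¬ (p : ℝ) ≤ 2 ^ J * z), (1 : ℝ) / p ≤
            (M'.filter (fun p : ℕ => ¬ (p : ℝ) ≤ 2 ^ J * z)).card • (1 / (2 ^ J * z)) := by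
          apply Finset.sum_le_card_nsmul
          intro p hp
          have h4 := (Finset.mem_filter.mp hp).2
          push Not at h4
          exact one_div_le_one_div_of_le hpos h4.le
        have h4 := hcount S (2 ^ (J + 1) * z) hx2
          (M'.filter (fun p : ℕ => ¬ (p : ℝ) ≤ 2 ^ J * z)) (by
            intro p hp
            have h5 := hM' (Finset.mem_filter.mp hp).1
            exact ⟨(hM p h5).1, hle p (Finset.mem_filter.mp hp).1, (hM p h5).2.2⟩)
        rw [← hAdef] at h4
        have h5 : Real.log (2 ^ (J + 1) * z) = Real.log z + (J + 1) * Real.log 2 := by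
          rw [Real.log_mul (by positivity) hz0.ne', Real.log_pow]
          push_cast
          ring
        rw [h5] at h4
        rw [nsmul_eq_mul] at h3
        refine h3.trans ?_
        calc ((M'.filter (fun p : ℕ => ¬ (p : ℝ) ≤ 2 ^ J * z)).card : ℝ) * (1 / (2 ^ J * z))
            ≤ (C0 * A * (2 ^ (J + 1) * z) / (Real.log z + (J + 1) * Real.log 2) ^ 2) *
                (1 / (2 ^ J * z)) := by
              apply mul_le_mul_of_nonneg_right h4 (by positivity)
          _ = 2 * C0 * A * (1 / (Real.log z + (J + 1) * Real.log 2) ^ 2) := by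
              rw [pow_succ]
              field_simp
      have h3 := telescope hlz hl2 J
      have h4 := mul_le_mul_of_nonneg_left h3 (show 0 ≤ 2 * C0 * A by positivity)
      push_cast
      have h5 : 2 * C0 * A * (1 / Real.log 2 *
          (1 / Real.log z - 1 / (Real.log z + ((J : ℝ) + 1) * Real.log 2))) =
          2 * C0 * A * (1 / Real.log 2 * (1 / Real.log z - 1 / (Real.log z + J * Real.log 2))) +
          2 * C0 * A * (1 / Real.log 2 *
            (1 / (Real.log z + J * Real.log 2) - 1 / (Real.log z + ((J : ℝ) + 1) * Real.log 2))) := by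
        ring
      rw [h5]
      linarith
  have h1 := key (M.sup id) M (Finset.Subset.refl _) (by
    intro p hp
    have h2 : p ≤ M.sup id := Finset.le_sup (f := id) hp
    have h3 : M.sup id < 2 ^ (M.sup id) := Nat.lt_two_pow_self
    have h4 : (p : ℝ) ≤ 2 ^ (M.sup id) := by exact_mod_cast (h2.trans h3.le)
    have h5 : (0 : ℝ) < 2 ^ (M.sup id) := by positivity
    nlinarith)
  refine h1.trans ?_
  have h2 : 0 ≤ 1 / (Real.log z + (M.sup id : ℕ) * Real.log 2) := by positivity
  calc 2 * C0 * A * (1 / Real.log 2 *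
        (1 / Real.log z - 1 / (Real.log z + (M.sup id : ℕ) * Real.log 2)))
      ≤ 2 * C0 * A * (1 / Real.log 2 * (1 / Real.log z)) := by
        apply mul_le_mul_of_nonneg_left _ (by positivity)
        apply mul_le_mul_of_nonneg_left _ (by positivity)
        linarith
    _ = 2 * C0 / Real.log 2 * A / Real.log z := by ring

theorem mertens_upper : ∃ C : ℝ, 0 < C ∧ ∀ y z : ℝ, 2 ≤ y → y ≤ z → ∀ M : Finset ℕ,
    (∀ p ∈ M, p.Prime ∧ y < (p : ℝ) ∧ (p : ℝ) ≤ z) →
    ∑ p ∈ M, (1 : ℝ) / p ≤ Real.log (Real.log z / Real.log y) + C := by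
  classical
  obtain ⟨C, hC, hM⟩ := sum_primesUpTo_bounds
  refine ⟨2 * C, by positivity, ?_⟩
  intro y z hy hyz M hMp
  have hy0 : 0 ≤ y := by linarith
  have hz0 : 0 ≤ z := by linarith
  have hly : 0 < Real.log y := Real.log_pos (by linarith)
  have hlz : 0 < Real.log z := Real.log_pos (by linarith)
  have h1 := hM y hy
  have h2 := hM z (by linarith)
  rw [abs_le] at h1 h2
  have h3 : Disjoint (primesUpTo y) M := by
    rw [Finset.disjoint_left]
    intro p hp hpM
    rw [mem_primesUpTo hy0] at hp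
    have := (hMp p hpM).2.1
    linarith
  have h4 : primesUpTo y ∪ M ⊆ primesUpTo z := by
    intro p hp
    rw [mem_primesUpTo hz0]
    rcases Finset.mem_union.mp hp with h | h
    · rw [mem_primesUpTo hy0] at h
      exact ⟨h.1, h.2.trans hyz⟩
    · exact ⟨(hMp p h).1, (hMp p h).2.2⟩
  have h5 : ∑ p ∈ primesUpTo y ∪ M, (1 : ℝ) / p ≤ ∑ p ∈ primesUpTo z, (1 : ℝ) / p :=
    Finset.sum_le_sum_of_subset_of_nonneg h4 fun p _ _ => by positivity
  rw [Finset.sum_union h3] at h5
  rw [Real.log_div hlz.ne' hly.ne']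
  linarith [h1.1, h2.2]

end Pool.Agent.Helper81.MS
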