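import Pool.Agent.Helper81.MS.Arith

/-!
# Consequences: growth under rough factors, and reduction to finitely many integers
-/

set_option autoImplicit false

open Finset

namespace Pool.Agent.Helper81.MS

open ArithmeticFunction (sigma)

theorem hh_le_log {n : ℕ} (hn : 0 < n) : hh n ≤ 1 + Real.log n := by
  rw [hh_eq_sum hn.ne']
  calc ∑ d ∈ n.divisors, (1 : ℝ) / d ≤ ∑ d ∈ Finset.Icc 1 n, (1 : ℝ) / d := by
        apply Finset.sum_le_sum_of_subset_of_nonneg
        · intro d hd
          rw [Finset.mem_Icc]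
          exact ⟨Nat.pos_of_mem_divisors hd, Nat.divisor_le hd⟩
        · intro d _ _; positivity
    _ = (harmonic n : ℝ) := by
        rw [harmonic_eq_sum_Icc]
        push_cast
        exact Finset.sum_congr rfl fun d _ => one_div _
    _ ≤ 1 + Real.log n := harmonic_le_one_add_log n

theorem one_add_log_le {x : ℝ} (hx : 1 ≤ x) : 1 + Real.log x ≤ 2 * √x := by
  have h0 : 0 < x := by linarith
  have h1 : 0 < √x := Real.sqrt_pos.mpr h0
  have h2 := Real.log_le_sub_one_of_pos h1
  rw [Real.log_sqrt h0.le] at h2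
  linarith

theorem sigma_eq_hh (n : ℕ) (hn : n ≠ 0) : (sigma 1 n : ℝ) = n * hh n := by
  unfold hh
  have : (n : ℝ) ≠ 0 := by exact_mod_cast hn
  field_simp

/-- A rough factor always increases `σ(φ(k)) / k`. -/
theorem growth : ∃ C : ℝ, 1 ≤ C ∧ ∀ k m : ℕ, 0 < k → 1 < m → k.Coprime m →
    (∀ p : ℕ, p.Prime → p ∣ m → Real.exp (C * (k : ℝ) ^ 2) < (p : ℝ)) →
    m * sigma 1 k.totient < sigma 1 (k * m).totient := by
  obtain ⟨C, hC, hlow⟩ := lower
  refine ⟨18 * C, by linarith, ?_⟩
  intro k m hk hm hkm hp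
  have hN0 : 0 < k.totient := Nat.totient_pos.mpr hk
  have hN0k : k.totient ≤ k := Nat.totient_le k
  set N0 := k.totient with hN0def
  set σ0 : ℕ := sigma 1 N0 with hσ0
  set ε : ℝ := 1 / (2 * σ0 + 2) with hε
  have hε0 : 0 < ε := by positivity
  have hε1 : ε ≤ 1 := by
    rw [hε, div_le_one (by positivity)]
    have : (0 : ℝ) ≤ σ0 := by positivity
    linarith
  have hk1 : (1 : ℝ) ≤ k := by exact_mod_cast hk
  have hsk : 1 ≤ √(k : ℝ) := by
    rw [Real.one_le_sqrt]
    exact hk1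
  have hsq : √(k : ℝ) * √(k : ℝ) = k := Real.mul_self_sqrt (by linarith)
  have hN0r : (1 : ℝ) ≤ N0 := by exact_mod_cast hN0
  have hN0kr : (N0 : ℝ) ≤ k := by exact_mod_cast hN0k
  have h1 : hh (2 * N0) ≤ 3 * √(k : ℝ) := by
    have h2 := hh_le_log (show 0 < 2 * N0 by omega)
    have h3 := one_add_log_le (x := ((2 * N0 : ℕ) : ℝ)) (by push_cast; linarith)
    have h4 : √((2 * N0 : ℕ) : ℝ) ≤ 3 / 2 * √(k : ℝ) := by
      rw [Real.sqrt_le_left (by positivity)]
      push_cast
      have e : (3 / 2 * √(k : ℝ)) ^ 2 = 9 / 4 * k := by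
        rw [mul_pow, sq (√(k : ℝ)), hsq]
        norm_num
      rw [e]
      linarith
    linarith
  have h2 : (σ0 : ℝ) ≤ 2 * k * √(k : ℝ) := by
    rw [hσ0, sigma_eq_hh N0 hN0.ne']
    have h3 := hh_le_log hN0
    have h4 := one_add_log_le hN0r
    have h5 : √(N0 : ℝ) ≤ √(k : ℝ) := Real.sqrt_le_sqrt hN0kr
    have h6 : hh N0 ≤ 2 * √(k : ℝ) := by linarith
    calc (N0 : ℝ) * hh N0 ≤ k * (2 * √(k : ℝ)) := by
          apply mul_le_mul hN0kr h6 _ (by linarith)
          linarith [one_le_hh hN0.ne']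
      _ = 2 * k * √(k : ℝ) := by ring
  have hH := one_le_hh (show 2 * N0 ≠ 0 by omega)
  have h3 : C * hh (2 * N0) / ε ≤ 18 * C * (k : ℝ) ^ 2 := by
    have e : C * hh (2 * N0) / ε = C * (hh (2 * N0) * (2 * σ0 + 2)) := by
      rw [hε]
      field_simp
    rw [e]
    have h4 : 2 * (σ0 : ℝ) + 2 ≤ 6 * (k * √(k : ℝ)) := by
      have : 1 ≤ (k : ℝ) * √(k : ℝ) := by nlinarith
      linarith
    have h5 : hh (2 * N0) * (2 * σ0 + 2) ≤ 3 * √(k : ℝ) * (6 * (k * √(k : ℝ))) := by
      apply mul_le_mul h1 h4 (by positivity) (by positivity)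
    have h6 : 3 * √(k : ℝ) * (6 * (k * √(k : ℝ))) = 18 * (k : ℝ) ^ 2 := by
      calc 3 * √(k : ℝ) * (6 * (k * √(k : ℝ))) = 18 * k * (√(k : ℝ) * √(k : ℝ)) := by ring
        _ = 18 * (k : ℝ) ^ 2 := by rw [hsq]; ring
    rw [h6] at h5
    calc C * (hh (2 * N0) * (2 * σ0 + 2)) ≤ C * (18 * (k : ℝ) ^ 2) :=
          mul_le_mul_of_nonneg_left h5 (by linarith)
      _ = 18 * C * (k : ℝ) ^ 2 := by ring
  have h4 := hlow ε hε0 hε1 k m hk hm hkm (by
    intro p hpp hpm
    exact (Real.exp_le_exp.mpr h3).trans_lt (hp p hpp hpm))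
  have h5 : (2 * (σ0 : ℝ) + 1) ≤ (sigma 1 (2 * N0) : ℝ) := by
    exact_mod_cast two_sigma_lt hN0.ne'
  have h6 : (σ0 : ℝ) < (1 - ε) * ((sigma 1 (2 * N0) : ℝ) / 2) := by
    have h7 : (1 - ε) * ((2 * (σ0 : ℝ) + 1) / 2) ≤ (1 - ε) * ((sigma 1 (2 * N0) : ℝ) / 2) := by
      apply mul_le_mul_of_nonneg_left _ (by linarith)
      linarith
    refine lt_of_lt_of_le ?_ h7
    have h8 : (1 - ε) * ((2 * (σ0 : ℝ) + 1) / 2) = (2 * σ0 + 1) ^ 2 / (2 * (2 * σ0 + 2)) := by
      rw [hε]
      field_simp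
      ring
    rw [h8, lt_div_iff₀ (by positivity)]
    nlinarith
  have hmr : (0 : ℝ) < m := by
    have : 0 < m := by omega
    exact_mod_cast this
  have h7 : (m : ℝ) * σ0 < (sigma 1 (k * m).totient : ℝ) := by
    calc (m : ℝ) * σ0 < m * ((1 - ε) * ((sigma 1 (2 * N0) : ℝ) / 2)) := mul_lt_mul_of_pos_left h6 hmr
      _ = (1 - ε) * (m * (sigma 1 (2 * N0) : ℝ) / 2) := by ring
      _ ≤ _ := h4
  exact_mod_cast h7

/-- Smooth part times rough part. -/
theorem decomp (y n : ℕ) (hn : 0 < n) : ∃ k m : ℕ, n = k * m ∧ 0 < k ∧ 0 < m ∧ k.Coprime m ∧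
    (∀ p : ℕ, p.Prime → p ∣ k → p ≤ y) ∧ (∀ p : ℕ, p.Prime → p ∣ m → y < p) := by
  induction n using Nat.recOnPosPrimePosCoprime with
  | prime_pow p e hp he =>
    rcases le_or_gt p y with h | h
    · refine ⟨p ^ e, 1, by ring, hn, one_pos, Nat.coprime_one_right _, ?_, ?_⟩
      · intro q hq hqp
        rwa [(Nat.prime_dvd_prime_iff_eq hq hp).mp (hq.dvd_of_dvd_pow hqp)]
      · intro q hq hq1
        exact absurd hq1 hq.not_dvd_one
    · refine ⟨1, p ^ e, by ring, one_pos, hn, Nat.coprime_one_left _, ?_, ?_⟩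
      · intro q hq hq1
        exact absurd hq1 hq.not_dvd_one
      · intro q hq hqp
        rwa [(Nat.prime_dvd_prime_iff_eq hq hp).mp (hq.dvd_of_dvd_pow hqp)]
  | zero => omega
  | one =>
    refine ⟨1, 1, by ring, one_pos, one_pos, Nat.coprime_one_left _, ?_, ?_⟩ <;>
      exact fun q hq hq1 => absurd hq1 hq.not_dvd_one
  | coprime a b ha hb hab iha ihb =>
    obtain ⟨k1, m1, e1, hk1, hm1, h1, h2, h3⟩ := iha (by omega)
    obtain ⟨k2, m2, e2, hk2, hm2, h4, h5, h6⟩ := ihb (by omega)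
    refine ⟨k1 * k2, m1 * m2, by rw [e1, e2]; ring, by positivity, by positivity, ?_, ?_, ?_⟩
    · have h7 : k1.Coprime m2 := Nat.Coprime.coprime_dvd_left ⟨m1, e1⟩
        (Nat.Coprime.coprime_dvd_right ⟨k2, by rw [e2]; ring⟩ hab)
      have h8 : k2.Coprime m1 := Nat.Coprime.coprime_dvd_left ⟨m2, e2⟩
        (Nat.Coprime.coprime_dvd_right ⟨k1, by rw [e1]; ring⟩ hab.symm)
      rw [Nat.coprime_mul_iff_left, Nat.coprime_mul_iff_right, Nat.coprime_mul_iff_right]
      exact ⟨⟨h1, h7⟩, ⟨h8, h4⟩⟩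
    · intro q hq hqk
      rcases hq.dvd_mul.mp hqk with h | h
      · exact h2 q hq h
      · exact h5 q hq h
    · intro q hq hqk
      rcases hq.dvd_mul.mp hqk with h | h
      · exact h3 q hq h
      · exact h6 q hq h

/-- The radical. -/
def rad (k : ℕ) : ℕ := ∏ p ∈ k.primeFactors, p

theorem rad_dvd (k : ℕ) : rad k ∣ k := Nat.prod_primeFactors_dvd k

theorem rad_pos (k : ℕ) : 0 < rad k :=
  Finset.prod_pos fun _ hp => (Nat.prime_of_mem_primeFactors hp).pos

theorem primeFactors_rad (k : ℕ) : (rad k).primeFactors = k.primeFactors :=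
  Nat.primeFactors_prod fun _ hp => Nat.prime_of_mem_primeFactors hp

theorem squarefree_rad (k : ℕ) : Squarefree (rad k) := by
  rcases Nat.eq_zero_or_pos k with rfl | hk
  · unfold rad; simp
  · exact Finset.squarefree_prod_of_pairwise_isCoprime
      (fun p hp q hq hpq => by
        rw [Function.onFun, ← Nat.coprime_iff_isRelPrime]
        exact (Nat.coprime_primes (Nat.prime_of_mem_primeFactors hp)
          (Nat.prime_of_mem_primeFactors hq)).mpr hpq)
      (fun p hp => (Nat.prime_of_mem_primeFactors hp).squarefree)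

theorem rad_ratio (c k : ℕ) (hc : 0 < c) (hk : 0 < k) :
    k * sigma 1 (c * (rad k).totient) ≤ rad k * sigma 1 (c * k.totient) := by
  have h1 : (k.totient : ℝ) * rad k = (rad k).totient * k := by
    rw [totient_eq_prod k, totient_eq_prod (rad k), primeFactors_rad]
    ring
  have h2 : 0 < k.totient := Nat.totient_pos.mpr hk
  have h3 : 0 < (rad k).totient := Nat.totient_pos.mpr (rad_pos k)
  have h4 : c * (rad k).totient ∣ c * k.totient :=
    Nat.mul_dvd_mul_left c (Nat.totient_dvd_of_dvd (rad_dvd k))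
  have h5 := hh_mono h4 (by positivity)
  have h6 : (k : ℝ) * sigma 1 (c * (rad k).totient) ≤ rad k * sigma 1 (c * k.totient) := by
    rw [sigma_eq_hh _ (by positivity), sigma_eq_hh (c * k.totient) (by positivity)]
    push_cast
    calc (k : ℝ) * (c * (rad k).totient * hh (c * (rad k).totient))
        = c * ((rad k).totient * k) * hh (c * (rad k).totient) := by ring
      _ = c * (k.totient * rad k) * hh (c * (rad k).totient) := by rw [h1]
      _ ≤ c * (k.totient * rad k) * hh (c * k.totient) := by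
          apply mul_le_mul_of_nonneg_left h5 (by positivity)
      _ = rad k * (c * k.totient * hh (c * k.totient)) := by ring
  exact_mod_cast h6

theorem prime_dvd_totient {k q : ℕ} (hq : q.Prime) (h : q ∣ k.totient) :
    ∃ p : ℕ, p.Prime ∧ p ∣ k ∧ q ≤ p := by
  have h1 : q ∣ k * ∏ p ∈ k.primeFactors, (p - 1) := by
    rw [← Nat.totient_mul_prod_primeFactors]
    exact Dvd.dvd.mul_right h _
  rcases hq.dvd_mul.mp h1 with h2 | h2
  · exact ⟨q, hq, h2, le_rfl⟩
  · obtain ⟨p, hp, hqp⟩ := (hq.prime.dvd_finsetProd_iff _).mp h2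
    have hpp := Nat.prime_of_mem_primeFactors hp
    refine ⟨p, hpp, Nat.dvd_of_mem_primeFactors hp, ?_⟩
    have h3 := Nat.le_of_dvd (by have := hpp.two_le; omega) hqp
    omega

/-- Integers with a large gap between consecutive prime factors. -/
theorem gap (y : ℕ) : ∃ Y : ℕ, ∀ k m : ℕ, 0 < k → 0 < m →
    (∀ p : ℕ, p.Prime → p ∣ k → p ≤ y) → (∀ p : ℕ, p.Prime → p ∣ m → Y < p) →
    rad k ≤ 2 * sigma 1 (rad k).totient → k * m ≤ 2 * sigma 1 (k * m).totient := by
  obtain ⟨C, hC, hlow⟩ := lower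
  refine ⟨max y ⌈Real.exp (C * 2 ^ (y + 2) * (primorial y + 1))⌉₊, ?_⟩
  intro k m hk hm hks hmr hr
  have hkm : k.Coprime m := by
    by_contra hn
    rw [Nat.Prime.not_coprime_iff_dvd] at hn
    obtain ⟨p, hp, h1, h2⟩ := hn
    have h3 := hks p hp h1
    have h4 := hmr p hp h2
    exact absurd (lt_of_le_of_lt (le_max_left _ _) h4) (by omega)
  have hr0 := rad_pos k
  have hrR : rad k ≤ primorial y := by
    apply Nat.le_of_dvd (primorial_pos y)
    unfold rad primorial
    apply Finset.prod_dvd_prod_of_subset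
    intro p hp
    have h1 := Nat.prime_of_mem_primeFactors hp
    rw [Finset.mem_filter, Finset.mem_range]
    exact ⟨Nat.lt_succ_of_le (hks p h1 (Nat.dvd_of_mem_primeFactors hp)), h1⟩
  rcases Nat.lt_or_ge 1 m with hm1 | hm1
  · -- a rough part
    have hφk : 0 < k.totient := Nat.totient_pos.mpr hk
    have hrad2 := rad_ratio 2 k (by norm_num) hk
    have h2 := two_sigma_lt (Nat.totient_pos.mpr hr0).ne'
    set r := rad k with hrdef
    have hrr : (0 : ℝ) < r := by exact_mod_cast hr0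
    set ε : ℝ := 1 / (r + 1) with hε
    have hε0 : 0 < ε := by positivity
    have hε1 : ε ≤ 1 := by
      rw [hε, div_le_one (by positivity)]
      linarith
    have hH : hh (2 * k.totient) ≤ 2 ^ (y + 2) := by
      apply hh_le_two_pow (by omega)
      intro p hp hpd
      rcases hp.dvd_mul.mp hpd with h | h
      · have := Nat.le_of_dvd (by norm_num) h
        omega
      · obtain ⟨q, hq, hqk, hpq⟩ := prime_dvd_totient hp h
        have := hks q hq hqk
        omega
    have h3 : C * hh (2 * k.totient) / ε ≤ C * 2 ^ (y + 2) * (primorial y + 1) := by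
      have e : C * hh (2 * k.totient) / ε = C * hh (2 * k.totient) * (r + 1) := by
        rw [hε]
        field_simp
      rw [e]
      have h4 : (r : ℝ) ≤ primorial y := by exact_mod_cast hrR
      have h5 := one_le_hh (show 2 * k.totient ≠ 0 by omega)
      apply mul_le_mul _ (by linarith) (by positivity) (by positivity)
      apply mul_le_mul_of_nonneg_left hH (by linarith)
    have h4 := hlow ε hε0 hε1 k m hk hm1 hkm (by
      intro p hp hpm
      have h5 := lt_of_le_of_lt (le_max_right _ _) (hmr p hp hpm)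
      have h7 : (⌈Real.exp (C * 2 ^ (y + 2) * (primorial y + 1))⌉₊ : ℝ) < p := by
        exact_mod_cast h5
      exact (Real.exp_le_exp.mpr h3).trans_lt ((Nat.le_ceil _).trans_lt h7))
    have h5 : (k : ℝ) * (r + 1) ≤ r * (sigma 1 (2 * k.totient) : ℝ) := by
      have h6 : k * (r + 1) ≤ r * sigma 1 (2 * k.totient) := by
        refine le_trans ?_ hrad2
        apply Nat.mul_le_mul_left
        omega
      exact_mod_cast h6
    have h6 : (k : ℝ) ≤ (1 - ε) * (sigma 1 (2 * k.totient) : ℝ) := by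
      have h7 : (1 - ε) = r / (r + 1) := by
        rw [hε]
        field_simp
        ring
      rw [h7, div_mul_eq_mul_div, le_div_iff₀ (by positivity)]
      exact h5
    have h7 : ((k * m : ℕ) : ℝ) ≤ 2 * (sigma 1 (k * m).totient : ℝ) := by
      have hmr0 : (0 : ℝ) < m := by exact_mod_cast hm
      push_cast
      calc (k : ℝ) * m ≤ (1 - ε) * (sigma 1 (2 * k.totient) : ℝ) * m :=
            mul_le_mul_of_nonneg_right h6 hmr0.le
        _ = 2 * ((1 - ε) * (m * (sigma 1 (2 * k.totient) : ℝ) / 2)) := by ring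
        _ ≤ 2 * (sigma 1 (k * m).totient : ℝ) := by linarith
    exact_mod_cast h7
  · -- no rough part
    have hm' : m = 1 := by omega
    rw [hm', mul_one]
    have h1 := rad_ratio 1 k one_pos hk
    rw [one_mul, one_mul] at h1
    have h2 : rad k * k ≤ rad k * (2 * sigma 1 k.totient) := by
      calc rad k * k = k * rad k := Nat.mul_comm _ _
        _ ≤ k * (2 * sigma 1 (rad k).totient) := Nat.mul_le_mul_left k hr
        _ = 2 * (k * sigma 1 (rad k).totient) := by ring
        _ ≤ 2 * (rad k * sigma 1 k.totient) := Nat.mul_le_mul_left 2 h1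
        _ = rad k * (2 * sigma 1 k.totient) := by ring
    exact Nat.le_of_mul_le_mul_left h2 hr0

end Pool.Agent.Helper81.MS
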