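import Pool.Agent.Helper81.MS.Arith
import Pool.Agent.Helper18.BV.Final

/-!
# Optimality of the constant
-/

set_option autoImplicit false

open Finset Filter

namespace Pool.Agent.Helper81.MS

open ArithmeticFunction (sigma)
open Pool.Agent.Helper18.BV

theorem hh_le_of_large {P N1 : ℕ} (hP : 0 < P) {t δ : ℝ} (ht0 : 0 ≤ t) (hδ : 0 < δ)
    (hN : N1 * t ≤ δ / (1 + δ)) (ht1 : t ≤ 1) (hcard : P.primeFactors.card ≤ N1)
    (hp : ∀ r : ℕ, r.Prime → r ∣ P → 1 / (r : ℝ) ≤ t) : hh P ≤ 1 + δ := by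
  have h1 := hh_mul_prod_le hP
  have h2 : 1 - N1 * t ≤ ∏ p ∈ P.primeFactors, (1 - 1 / (p : ℝ)) := by
    calc 1 - N1 * t = 1 + N1 * (-t) := by ring
      _ ≤ (1 + -t) ^ N1 := one_add_mul_le_pow (by linarith) N1
      _ ≤ (1 + -t) ^ P.primeFactors.card := by
          apply pow_le_pow_of_le_one (by linarith) (by linarith) hcard
      _ = ∏ p ∈ P.primeFactors, (1 + -t) := by rw [Finset.prod_const]
      _ ≤ _ := by
          apply Finset.prod_le_prod
          · intro p _; linarith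
          · intro p hpP
            have := hp p (Nat.prime_of_mem_primeFactors hpP) (Nat.dvd_of_mem_primeFactors hpP)
            linarith
  have h3 : 1 / (1 + δ) ≤ ∏ p ∈ P.primeFactors, (1 - 1 / (p : ℝ)) := by
    refine le_trans ?_ h2
    have e : 1 / (1 + δ) = 1 - δ / (1 + δ) := by
      field_simp
      ring
    rw [e]
    linarith
  have h0 : 0 ≤ hh P := by linarith [one_le_hh hP.ne']
  have h4 : hh P * (1 / (1 + δ)) ≤ 1 := (mul_le_mul_of_nonneg_left h3 h0).trans h1
  rw [mul_one_div, div_le_one (by positivity)] at h4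
  exact h4

/-- For every `k` there are arbitrarily large primes `p` with `σ(φ(kp)) ≤ (1 + δ) p σ(2φ(k))/2`. -/
theorem sharp (k : ℕ) (hk : 0 < k) (δ : ℝ) (hδ : 0 < δ) (Y : ℝ) :
    ∃ p : ℕ, p.Prime ∧ Y < (p : ℝ) ∧ k.Coprime p ∧
      (sigma 1 (k * p).totient : ℝ) ≤ (1 + δ) * (p * (sigma 1 (2 * k.totient) : ℝ) / 2) := by
  classical
  obtain ⟨α, hα0, hα1, hS⟩ := special bv Pool.Agent.Helper44.BV.mass Pool.Agent.Helper28.BV.sieveW
  obtain ⟨g, hg, hgne, _, _⟩ := exists_wt (show (0 : ℝ) < 1 / 2 by norm_num) le_rfl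
  obtain ⟨c, X0, hc, hX0, hmain⟩ := hS 8 7 (by norm_num) (by norm_num) (by norm_num) (by norm_num)
    (by
      intro r hr hr2 hr8
      exfalso
      apply hr2
      have h1 : r ∣ 2 := hr.dvd_of_dvd_pow (show r ∣ 2 ^ 3 by norm_num; exact hr8)
      exact (Nat.prime_dvd_prime_iff_eq hr Nat.prime_two).mp h1) g hg hgne
  set N1 : ℕ := ⌊1 / α⌋₊ with hN1
  have hφ : 0 < k.totient := Nat.totient_pos.mpr hk
  -- a large `x`
  have ev1 : ∀ᶠ x : ℝ in atTop, |Y| + k ≤ x ^ (1 / 2 : ℝ) :=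
    (tendsto_rpow_atTop (by norm_num)).eventually_ge_atTop _
  have ev2 : ∀ᶠ x : ℝ in atTop, 2 * (k.totient : ℝ) + 1 + (N1 : ℝ) * ((1 + δ) / δ) ≤ x ^ α :=
    (tendsto_rpow_atTop hα0).eventually_ge_atTop _
  obtain ⟨x, ⟨hx1, hx2⟩, hxX⟩ := ((ev1.and ev2).and (eventually_ge_atTop (max X0 3))).exists
  have hxX0 : X0 ≤ x := (le_max_left _ _).trans hxX
  have hx3 : 3 ≤ x := (le_max_right _ _).trans hxX
  have hx0 : 0 < x := by linarith
  have hlx : 0 < Real.log x := Real.log_pos (by linarith)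
  set E : Finset ℕ := (range (⌊x⌋₊ + 1)).filter (fun p => p.Prime ∧ (p : ℝ) ≤ x ∧ p ≡ 7 [MOD 8] ∧
    ∀ r : ℕ, r.Prime → r ∣ p - 1 → r = 2 ∨ x ^ α < (r : ℝ)) with hE
  have h1 := hmain x hxX0 E (by
    intro p
    rw [hE, Finset.mem_filter, Finset.mem_range]
    constructor
    · exact fun h => h.2
    · intro h
      exact ⟨Nat.lt_succ_of_le (Nat.le_floor h.2.1), h⟩)
  obtain ⟨p, hpE, hpne⟩ : ∃ p ∈ E, Real.log p * wt g x p ≠ 0 := by
    by_contra hn
    push Not at hn
    rw [Finset.sum_eq_zero hn] at h1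
    linarith
  rw [hE, Finset.mem_filter] at hpE
  obtain ⟨_, hpp, hpx, hp8, hpr⟩ := hpE
  have hp0 : (0 : ℝ) < p := by exact_mod_cast hpp.pos
  have hgp : g (Real.log p / Real.log x) ≠ 0 := by
    intro h
    apply hpne
    unfold wt
    rw [h]
    simp
  have hsupp := hg.supp (subset_tsupport g (Function.mem_support.2 hgp))
  have hpx2 : x ^ (1 / 2 : ℝ) < p := by
    have h2 := hsupp.1
    rw [lt_div_iff₀ hlx] at h2
    rw [← Real.log_rpow hx0] at h2
    exact (Real.log_lt_log_iff (Real.rpow_pos_of_pos hx0 _) hp0).mp h2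
  have hpltx : (p : ℝ) < x := by
    have h2 := hsupp.2
    rw [div_lt_one hlx] at h2
    exact (Real.log_lt_log_iff hp0 hx0).mp h2
  have hYp : |Y| + k < p := hx1.trans_lt hpx2
  have hkp : k < p := by
    have h2 := abs_nonneg Y
    have h3 : (k : ℝ) < p := by linarith
    exact_mod_cast h3
  have hco : k.Coprime p := by
    rw [Nat.coprime_comm, hpp.coprime_iff_not_dvd]
    intro h
    have := Nat.le_of_dvd hk h
    omega
  refine ⟨p, hpp, ?_, hco, ?_⟩
  · have h2 := le_abs_self Y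
    have h3 : (0 : ℝ) ≤ k := by positivity
    linarith
  -- `p - 1 = 2 P`
  have hp7 : p % 8 = 7 := hp8
  obtain ⟨P, hP⟩ : ∃ P, p = 2 * P + 1 := ⟨p / 2, by omega⟩
  have hPpos : 0 < P := by omega
  have hPodd : P % 2 = 1 := by omega
  have hPr : ∀ r : ℕ, r.Prime → r ∣ P → x ^ α < (r : ℝ) := by
    intro r hr hrP
    have h2 : r ∣ p - 1 := by
      have : p - 1 = 2 * P := by omega
      rw [this]
      exact Dvd.dvd.mul_left hrP 2
    rcases hpr r hr h2 with h3 | h3
    · rw [h3] at hrP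
      omega
    · exact h3
  have hxα0 : 0 < x ^ α := Real.rpow_pos_of_pos hx0 _
  have hNδ : 0 ≤ (N1 : ℝ) * ((1 + δ) / δ) := by positivity
  have hφr : (0 : ℝ) < k.totient := by exact_mod_cast hφ
  have hcoP : (2 * k.totient).Coprime P := by
    by_contra hn
    rw [Nat.Prime.not_coprime_iff_dvd] at hn
    obtain ⟨r, hr, hr1, hr2⟩ := hn
    have h2 := hPr r hr hr2
    have h3 := Nat.le_of_dvd (by omega) hr1
    have h4 : (r : ℝ) ≤ 2 * k.totient := by exact_mod_cast h3
    linarith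
  have hcard : P.primeFactors.card ≤ N1 := by
    refine card_large (α := α) (x := x) hα0 (by linarith) hPpos ?_ P.primeFactors ?_
    · have h2 : (P : ℝ) ≤ p := by
        have : P ≤ p := by omega
        exact_mod_cast this
      linarith
    · intro r hr
      have h2 := Nat.prime_of_mem_primeFactors hr
      have h3 := Nat.dvd_of_mem_primeFactors hr
      exact ⟨h2, h3, hPr r h2 h3⟩
  have hxα1 : 1 ≤ x ^ α := by linarith
  have hhP : hh P ≤ 1 + δ := by
    apply hh_le_of_large (N1 := N1) hPpos (t := 1 / x ^ α) (by positivity) hδ _ _ hcard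
    · intro r hr hrP
      exact one_div_le_one_div_of_le hxα0 (hPr r hr hrP).le
    · rw [mul_one_div, div_le_div_iff₀ hxα0 (by positivity)]
      have h2 : (N1 : ℝ) * ((1 + δ) / δ) ≤ x ^ α := by linarith
      have h3 : (N1 : ℝ) * (1 + δ) = (N1 : ℝ) * ((1 + δ) / δ) * δ := by
        field_simp
      rw [h3, mul_comm δ]
      exact mul_le_mul_of_nonneg_right h2 hδ.le
    · rw [div_le_one hxα0]
      exact hxα1
  have e1 : (k * p).totient = (2 * k.totient) * P := by
    rw [Nat.totient_mul hco, Nat.totient_prime hpp]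
    have : p - 1 = 2 * P := by omega
    rw [this]
    ring
  have e2 : (sigma 1 (k * p).totient : ℝ) = (sigma 1 (2 * k.totient) : ℝ) * (P * hh P) := by
    rw [e1, ArithmeticFunction.isMultiplicative_sigma.map_mul_of_coprime hcoP]
    push_cast
    congr 1
    unfold hh
    have : (P : ℝ) ≠ 0 := by exact_mod_cast hPpos.ne'
    field_simp
  rw [e2]
  have h2 : (P : ℝ) ≤ p / 2 := by
    have h3 : (p : ℝ) = 2 * P + 1 := by exact_mod_cast hP
    linarith
  have hP0 : (0 : ℝ) ≤ P := by positivity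
  have hhh0 : 0 ≤ hh P := by linarith [one_le_hh hPpos.ne']
  calc (sigma 1 (2 * k.totient) : ℝ) * (P * hh P)
      ≤ (sigma 1 (2 * k.totient) : ℝ) * (p / 2 * (1 + δ)) := by
        apply mul_le_mul_of_nonneg_left _ (by positivity)
        exact mul_le_mul h2 hhP hhh0 (by positivity)
    _ = (1 + δ) * (p * (sigma 1 (2 * k.totient) : ℝ) / 2) := by ring

end Pool.Agent.Helper81.MS
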