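import Pool.Agent.Helper96.CPAP.Count

/-!
# Primes `p` such that all prime factors of `p - 1` lie in a given finite set
-/

set_option autoImplicit false

open Finset Real

namespace Pool.Agent.Helper81.MS

open Pool.Agent.Helper44 Pool.Agent.Helper96.CPAP

/-- The residues sieved out at `q`. -/
def occ (S : Finset ℕ) (q n : ℕ) : Prop := q ∣ n + 1 ∨ (q ∉ S ∧ q ∣ n)

instance (S : Finset ℕ) (q : ℕ) : DecidablePred (occ S q) := fun n => by
  unfold occ; infer_instance

/-- The number of residues sieved out at `q`. -/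
def nu (S : Finset ℕ) (q : ℕ) : ℕ := if q ∈ S then 1 else 2

theorem occ_congr {S : Finset ℕ} {q m n : ℕ} (h : m ≡ n [MOD q]) : occ S q m ↔ occ S q n := by
  unfold occ
  rw [Nat.ModEq.dvd_iff h dvd_rfl, Nat.ModEq.dvd_iff (h.add_right 1) dvd_rfl]

theorem card_occ {S : Finset ℕ} {q : ℕ} (hq : q.Prime) :
    ((range q).filter (occ S q)).card = nu S q := by
  have h2 := hq.two_le
  have key : (range q).filter (occ S q) = if q ∈ S then {q - 1} else {q - 1, 0} := by
    ext n
    rw [Finset.mem_filter, Finset.mem_range]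
    have e1 : n < q → (q ∣ n + 1 ↔ n = q - 1) := by
      intro hn
      constructor
      · intro h
        have := Nat.le_of_dvd (by omega) h
        omega
      · rintro rfl
        have : q - 1 + 1 = q := by omega
        rw [this]
    have e2 : n < q → (q ∣ n ↔ n = 0) := by
      intro hn
      constructor
      · intro h
        exact Nat.eq_zero_of_dvd_of_lt h hn
      · rintro rfl
        exact dvd_zero _
    unfold occ
    split_ifs with hS
    · rw [Finset.mem_singleton]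
      constructor
      · rintro ⟨hn, h | h⟩
        · exact (e1 hn).1 h
        · exact absurd hS h.1
      · intro h
        have hn : n < q := by omega
        exact ⟨hn, Or.inl ((e1 hn).2 h)⟩
    · rw [Finset.mem_insert, Finset.mem_singleton]
      constructor
      · rintro ⟨hn, h | h⟩
        · exact Or.inl ((e1 hn).1 h)
        · exact Or.inr ((e2 hn).1 h.2)
      · rintro (h | h)
        · have hn : n < q := by omega
          exact ⟨hn, Or.inl ((e1 hn).2 h)⟩
        · have hn : n < q := by omega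
          exact ⟨hn, Or.inr ⟨hS, (e2 hn).2 h⟩⟩
  rw [key]
  unfold nu
  split_ifs with hS
  · rw [Finset.card_singleton]
  · rw [Finset.card_pair (by omega)]

theorem card_occ_all {S : Finset ℕ} (I : Finset ℕ) (hI : ∀ q ∈ I, q.Prime) :
    ((range (∏ q ∈ I, q)).filter (fun n => ∀ q ∈ I, occ S q n)).card = ∏ q ∈ I, nu S q := by
  induction I using Finset.induction_on with
  | empty => simp
  | insert q I hqI ih =>
    have hq := hI q (Finset.mem_insert_self _ _)
    have hI' : ∀ q ∈ I, q.Prime := fun q' hq' => hI q' (Finset.mem_insert_of_mem hq')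
    have hco : Nat.Coprime q (∏ q ∈ I, q) := by
      apply Nat.Coprime.prod_right
      intro q' hq'
      exact (Nat.coprime_primes hq (hI' q' hq')).mpr (fun h => hqI (h ▸ hq'))
    have hpos : 0 < ∏ q ∈ I, q := Finset.prod_pos fun q' hq' => (hI' q' hq').pos
    rw [Finset.prod_insert hqI, Finset.prod_insert hqI, ← ih hI', ← card_occ (S := S) hq]
    rw [← card_crt hco hq.pos hpos (occ S q) (fun n => ∀ q ∈ I, occ S q n)]
    · congr 1
      apply Finset.filter_congr
      intro n _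
      rw [Finset.forall_mem_insert]
    · intro n
      exact occ_congr (Nat.mod_modEq n q)
    · intro n
      apply forall₂_congr
      intro q' hq'
      exact occ_congr ((Nat.mod_modEq n _).of_dvd (Finset.dvd_prod_of_mem _ hq'))

theorem count_bound {S : Finset ℕ} (I : Finset ℕ) (hI : ∀ q ∈ I, q.Prime) (N : ℕ) :
    |evCount (range N) (fun n => ∀ q ∈ I, occ S q n) -
      (N : ℝ) * ∏ q ∈ I, ((nu S q : ℝ) / q)| ≤ 1 * (((2 : ℕ) : ℝ) + 1) ^ I.card := by
  have hpos : 0 < ∏ q ∈ I, q := Finset.prod_pos fun q' hq' => (hI q' hq').pos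
  have hper : ∀ n, (∀ q ∈ I, occ S q (n + ∏ q ∈ I, q)) ↔ (∀ q ∈ I, occ S q n) := by
    intro n
    apply forall₂_congr
    intro q' hq'
    apply occ_congr
    have h1 : ∏ q ∈ I, q ≡ 0 [MOD q'] :=
      (Nat.modEq_zero_iff_dvd).mpr (Finset.dvd_prod_of_mem _ hq')
    simpa using h1.add_left n
  have h1 := count_periodic_bound (p := fun n => ∀ q ∈ I, occ S q n) hpos hper N
  rw [Nat.count_eq_card_filter_range, Nat.count_eq_card_filter_range, card_occ_all I hI] at h1
  rw [evCount_eq, Finset.prod_div_distrib]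
  push_cast at h1
  refine h1.trans ?_
  rw [one_mul, ← Finset.prod_const]
  apply Finset.prod_le_prod
  · intro q _; positivity
  · intro q _
    unfold nu
    split_ifs <;> norm_num

theorem exp_le_one_add {x : ℝ} (hx : 0 ≤ x) : Real.exp x ≤ (1 + x) * Real.exp (x ^ 2) := by
  have h1 : x - x ^ 2 ≤ Real.log (1 + x) := by
    have h2 := Real.one_sub_inv_le_log_of_pos (show (0 : ℝ) < 1 + x by linarith)
    refine le_trans ?_ h2
    have h3 : (1 + x)⁻¹ ≤ 1 - x + x ^ 2 := by
      rw [inv_le_iff_one_le_mul₀ (by linarith)]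
      nlinarith [pow_nonneg hx 3]
    linarith
  calc Real.exp x = Real.exp (x - x ^ 2 + x ^ 2) := by congr 1; ring
    _ = Real.exp (x - x ^ 2) * Real.exp (x ^ 2) := Real.exp_add _ _
    _ ≤ (1 + x) * Real.exp (x ^ 2) := by
        apply mul_le_mul_of_nonneg_right _ (Real.exp_pos _).le
        calc Real.exp (x - x ^ 2) ≤ Real.exp (Real.log (1 + x)) := Real.exp_le_exp.mpr h1
          _ = 1 + x := Real.exp_log (by linarith)

theorem exp_sum_inv_le : ∃ C : ℝ, 0 ≤ C ∧ ∀ S : Finset ℕ,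
    Real.exp (∑ q ∈ S, (1 : ℝ) / q) ≤ (∏ q ∈ S, (1 + 1 / (q : ℝ))) * Real.exp C := by
  obtain ⟨C2, hC2, hS⟩ := sum_inv_sq_le
  refine ⟨C2, hC2, ?_⟩
  intro S
  rw [Real.exp_sum]
  calc ∏ q ∈ S, Real.exp ((1 : ℝ) / q)
      ≤ ∏ q ∈ S, ((1 + 1 / (q : ℝ)) * Real.exp ((1 / (q : ℝ)) ^ 2)) := by
        apply Finset.prod_le_prod
        · intro q _; exact (Real.exp_pos _).le
        · intro q _
          exact exp_le_one_add (by positivity)
    _ = (∏ q ∈ S, (1 + 1 / (q : ℝ))) * Real.exp (∑ q ∈ S, (1 / (q : ℝ)) ^ 2) := by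
        rw [Finset.prod_mul_distrib, Real.exp_sum]
    _ ≤ (∏ q ∈ S, (1 + 1 / (q : ℝ))) * Real.exp C2 := by
        apply mul_le_mul_of_nonneg_left _ (Finset.prod_nonneg fun q _ => by positivity)
        exact Real.exp_le_exp.mpr (hS S)

/-- The sieving primes. -/
def PP (q : ℕ) : Prop := q.Prime ∧ 4 ≤ q

/-- Upper bound for the sieve product. -/
theorem prod_upper : ∃ C : ℝ, 0 < C ∧ ∀ (S : Finset ℕ) (w : ℝ), 2 ≤ w →
    ∏ q ∈ pU PP w, (1 - (nu S q : ℝ) / q) ≤
      C * (∏ q ∈ S, (1 + 1 / (q : ℝ))) / (Real.log w) ^ 2 := by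
  classical
  obtain ⟨C0, hC0, hM⟩ := sum_primesUpTo_bounds
  obtain ⟨C2, hC2, hE⟩ := exp_sum_inv_le
  refine ⟨Real.exp (2 * C0 + 2 + C2), Real.exp_pos _, ?_⟩
  intro S w hw
  have hPP : ∀ q, PP q → q.Prime := fun q h => h.1
  have hw0 : (0 : ℝ) ≤ w := by linarith
  have hlw : 0 < Real.log w := Real.log_pos (by linarith)
  have h1 : ∏ q ∈ pU PP w, (1 - (nu S q : ℝ) / q) ≤ Real.exp (-∑ q ∈ pU PP w, (nu S q : ℝ) / q) := by
    rw [← Finset.sum_neg_distrib, Real.exp_sum]
    apply Finset.prod_le_prod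
    · intro q hq
      rw [mem_pU hPP hw0] at hq
      have hq4 : (4 : ℝ) ≤ q := by exact_mod_cast hq.1.2
      have hn : (nu S q : ℝ) ≤ 2 := by
        unfold nu
        split_ifs <;> norm_num
      have : (nu S q : ℝ) / q ≤ 1 := by
        rw [div_le_one (by linarith)]
        linarith
      linarith
    · intro q _
      have := Real.add_one_le_exp (-((nu S q : ℝ) / q))
      linarith
  have h2 : ∑ q ∈ primesUpTo w, (1 : ℝ) / q ≤ ∑ q ∈ pU PP w, (1 : ℝ) / q + 1 := by
    have hsub : primesUpTo w ⊆ pU PP w ∪ {2, 3} := by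
      intro q hq
      rw [mem_primesUpTo hw0] at hq
      rw [Finset.mem_union, mem_pU hPP hw0]
      by_cases h4 : 4 ≤ q
      · exact Or.inl ⟨⟨hq.1, h4⟩, hq.2⟩
      · right
        have h2 := hq.1.two_le
        rw [Finset.mem_insert, Finset.mem_singleton]
        omega
    calc ∑ q ∈ primesUpTo w, (1 : ℝ) / q ≤ ∑ q ∈ pU PP w ∪ {2, 3}, (1 : ℝ) / q :=
          Finset.sum_le_sum_of_subset_of_nonneg hsub fun q _ _ => by positivity
      _ ≤ ∑ q ∈ pU PP w, (1 : ℝ) / q + ∑ q ∈ ({2, 3} : Finset ℕ), (1 : ℝ) / q := by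
          rw [← Finset.sum_union_inter]
          have : 0 ≤ ∑ q ∈ pU PP w ∩ {2, 3}, (1 : ℝ) / q := Finset.sum_nonneg fun q _ => by positivity
          linarith
      _ ≤ ∑ q ∈ pU PP w, (1 : ℝ) / q + 1 := by
          have : ∑ q ∈ ({2, 3} : Finset ℕ), (1 : ℝ) / q ≤ 1 := by
            rw [Finset.sum_pair (by norm_num)]
            norm_num
          linarith
  have h3 : 2 * ∑ q ∈ pU PP w, (1 : ℝ) / q - ∑ q ∈ S, (1 : ℝ) / q ≤
      ∑ q ∈ pU PP w, (nu S q : ℝ) / q := by
    have e : ∀ q ∈ pU PP w, (nu S q : ℝ) / q = 2 * ((1 : ℝ) / q) - if q ∈ S then (1 : ℝ) / q else 0 := by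
      intro q _
      unfold nu
      split_ifs <;> push_cast <;> ring
    rw [Finset.sum_congr rfl e, Finset.sum_sub_distrib, ← Finset.mul_sum, ← Finset.sum_filter]
    have : ∑ q ∈ (pU PP w).filter (fun q => q ∈ S), (1 : ℝ) / q ≤ ∑ q ∈ S, (1 : ℝ) / q := by
      apply Finset.sum_le_sum_of_subset_of_nonneg
      · intro q hq
        exact (Finset.mem_filter.mp hq).2
      · intro q _ _; positivity
    linarith
  have h4 := (abs_le.mp (hM w hw)).1
  have h5 : -∑ q ∈ pU PP w, (nu S q : ℝ) / q ≤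
      -(2 * Real.log (Real.log w)) + (2 * C0 + 2) + ∑ q ∈ S, (1 : ℝ) / q := by
    linarith
  have h6 : Real.exp (-(2 * Real.log (Real.log w))) = 1 / (Real.log w) ^ 2 := by
    rw [Real.exp_neg, ← Nat.cast_two, Real.exp_nat_mul, Real.exp_log hlw, one_div]
  calc ∏ q ∈ pU PP w, (1 - (nu S q : ℝ) / q)
      ≤ Real.exp (-∑ q ∈ pU PP w, (nu S q : ℝ) / q) := h1
    _ ≤ Real.exp (-(2 * Real.log (Real.log w)) + (2 * C0 + 2) + ∑ q ∈ S, (1 : ℝ) / q) :=
        Real.exp_le_exp.mpr h5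
    _ = 1 / (Real.log w) ^ 2 * Real.exp (2 * C0 + 2) * Real.exp (∑ q ∈ S, (1 : ℝ) / q) := by
        rw [Real.exp_add, Real.exp_add, h6]
    _ ≤ 1 / (Real.log w) ^ 2 * Real.exp (2 * C0 + 2) *
          ((∏ q ∈ S, (1 + 1 / (q : ℝ))) * Real.exp C2) := by
        apply mul_le_mul_of_nonneg_left (hE S) (by positivity)
    _ = Real.exp (2 * C0 + 2 + C2) * (∏ q ∈ S, (1 + 1 / (q : ℝ))) / (Real.log w) ^ 2 := by
        rw [Real.exp_add (2 * C0 + 2) C2]
        ring

theorem one_le_prod (S : Finset ℕ) : (1 : ℝ) ≤ ∏ q ∈ S, (1 + 1 / (q : ℝ)) := by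
  calc (1 : ℝ) = ∏ q ∈ S, (1 : ℝ) := by simp
    _ ≤ ∏ q ∈ S, (1 + 1 / (q : ℝ)) := by
        apply Finset.prod_le_prod
        · intro q _; norm_num
        · intro q _
          have : (0 : ℝ) ≤ 1 / (q : ℝ) := by positivity
          linarith

theorem log_sq_le {x : ℝ} (hx : 1 ≤ x) : (Real.log x) ^ 2 ≤ 16 * x ^ (1 / 2 : ℝ) := by
  have hx0 : 0 < x := by linarith
  have h1 : Real.log x ≤ 4 * x ^ (1 / 4 : ℝ) := by
    have h2 : Real.log (x ^ (1 / 4 : ℝ)) = 1 / 4 * Real.log x := Real.log_rpow hx0 _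
    have h3 := Real.log_le_sub_one_of_pos (Real.rpow_pos_of_pos hx0 (1 / 4 : ℝ))
    linarith
  have h0 : 0 ≤ Real.log x := Real.log_nonneg hx
  calc (Real.log x) ^ 2 ≤ (4 * x ^ (1 / 4 : ℝ)) ^ 2 := pow_le_pow_left₀ h0 h1 2
    _ = 16 * x ^ (1 / 2 : ℝ) := by
        rw [mul_pow, ← Real.rpow_natCast (x ^ (1 / 4 : ℝ)) 2, ← Real.rpow_mul hx0.le]
        norm_num

/-- Number of primes `p ≤ x` such that all the primes of `p - 1` lie in `S`. -/
theorem count_le : ∃ C : ℝ, 0 < C ∧ ∀ (S : Finset ℕ) (x : ℝ), 2 ≤ x → ∀ M : Finset ℕ,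
    (∀ p ∈ M, p.Prime ∧ (p : ℝ) ≤ x ∧ ∀ q : ℕ, q.Prime → q ∣ p - 1 → q ∈ S) →
    (M.card : ℝ) ≤ C * (∏ q ∈ S, (1 + 1 / (q : ℝ))) * x / (Real.log x) ^ 2 := by
  classical
  obtain ⟨K, c, hK, hc, hs⟩ := sieveK 2
  obtain ⟨C1, hC1, hprod⟩ := prod_upper
  refine ⟨8 * K ^ 2 * C1 + 32 + (K * Real.log 4) ^ 2, by positivity, ?_⟩
  intro S x hx M hMp
  have hx0 : (0 : ℝ) < x := by linarith
  have hx1 : (1 : ℝ) ≤ x := by linarith
  have hlx : 0 < Real.log x := Real.log_pos (by linarith)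
  have hA := one_le_prod S
  set A := ∏ q ∈ S, (1 + 1 / (q : ℝ)) with hAdef
  have hA0 : 0 < A := by linarith
  have hl4 : 0 < Real.log 4 := Real.log_pos (by norm_num)
  rcases lt_or_ge x ((4 : ℝ) ^ K) with hsmall | hbig
  · -- trivial bound
    have h1 : (M.card : ℝ) ≤ x := by
      have h2 : M ⊆ Finset.Ioc 0 ⌊x⌋₊ := by
        intro p hp
        have := hMp p hp
        rw [Finset.mem_Ioc]
        exact ⟨this.1.pos, Nat.le_floor this.2.1⟩
      have h3 := Finset.card_le_card h2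
      rw [Nat.card_Ioc] at h3
      have h4 : (M.card : ℝ) ≤ (⌊x⌋₊ : ℝ) := by exact_mod_cast (by omega : M.card ≤ ⌊x⌋₊)
      exact h4.trans (Nat.floor_le hx0.le)
    have h2 : Real.log x ≤ K * Real.log 4 := by
      rw [← Real.log_rpow (by norm_num)]
      exact Real.log_le_log hx0 hsmall.le
    have h3 : (Real.log x) ^ 2 ≤ (K * Real.log 4) ^ 2 := pow_le_pow_left₀ hlx.le h2 2
    rw [le_div_iff₀ (by positivity)]
    calc (M.card : ℝ) * (Real.log x) ^ 2 ≤ x * (K * Real.log 4) ^ 2 := by gcongr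
      _ = (K * Real.log 4) ^ 2 * 1 * x := by ring
      _ ≤ (8 * K ^ 2 * C1 + 32 + (K * Real.log 4) ^ 2) * A * x := by
          gcongr
          have : 0 ≤ 8 * K ^ 2 * C1 + 32 := by positivity
          linarith
  · set w : ℝ := x ^ (1 / (2 * K)) with hwdef
    have hK0 : 0 < K := by linarith
    have hw2 : 2 ≤ w := by
      calc (2 : ℝ) = ((4 : ℝ) ^ K) ^ (1 / (2 * K)) := by
            rw [← Real.rpow_mul (by norm_num)]
            have : K * (1 / (2 * K)) = 1 / 2 := by field_simp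
            rw [this, ← Real.sqrt_eq_rpow]
            rw [show (4 : ℝ) = 2 ^ 2 by norm_num]
            exact (Real.sqrt_sq (by norm_num)).symm
        _ ≤ w := Real.rpow_le_rpow (by positivity) hbig (by positivity)
    have hwK : w ^ K = x ^ (1 / 2 : ℝ) := by
      rw [hwdef, ← Real.rpow_mul hx0.le]
      congr 1
      field_simp
    have hwx : w ≤ x ^ (1 / 2 : ℝ) := by
      apply Real.rpow_le_rpow_of_exponent_le hx1
      apply one_div_le_one_div_of_le (by norm_num)
      linarith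
    have hlogw : Real.log w = Real.log x / (2 * K) := by
      rw [hwdef, Real.log_rpow hx0]
      ring
    have hw0 : 0 ≤ w := by linarith
    have hlw : 0 < Real.log w := Real.log_pos (by linarith)
    have hPP : ∀ q, PP q → q.Prime ∧ 2 * 2 ≤ q := fun q h => h
    have h1 := (hs ℕ PP hPP (fun q => (nu S q : ℝ)) (by
      intro q _
      unfold nu
      split_ifs <;> norm_num) w hw2 (range ⌊x⌋₊) (occ S) ⌊x⌋₊ 1 (by positivity) (by norm_num) (by
      intro I hI
      exact count_bound I (fun q hq => (hI q hq).1.1) _)).1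
    have h2 : (M.card : ℝ) ≤ w +
        evCount (range ⌊x⌋₊) (fun n => ∀ q : ℕ, PP q → (q : ℝ) ≤ w → ¬ occ S q n) := by
      rw [evCount_eq]
      have h3 : M ⊆ Finset.Ioc 0 ⌊w⌋₊ ∪
          ((range ⌊x⌋₊).filter (fun n => ∀ q : ℕ, PP q → (q : ℝ) ≤ w → ¬ occ S q n)).image
            (fun n => n + 1) := by
        intro p hp
        obtain ⟨hpp, hpx, hpS⟩ := hMp p hp
        rw [Finset.mem_union]
        rcases le_or_gt (p : ℝ) w with h | h
        · left
          rw [Finset.mem_Ioc]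
          exact ⟨hpp.pos, Nat.le_floor h⟩
        · right
          rw [Finset.mem_image]
          have hp1 : p - 1 + 1 = p := Nat.succ_pred_eq_of_pos hpp.pos
          refine ⟨p - 1, ?_, hp1⟩
          rw [Finset.mem_filter, Finset.mem_range]
          have h4 : p ≤ ⌊x⌋₊ := Nat.le_floor hpx
          refine ⟨by have := hpp.two_le; omega, ?_⟩
          intro q hq hqw hocc
          unfold occ at hocc
          rw [hp1] at hocc
          rcases hocc with h5 | ⟨h5, h6⟩
          · have h6 := (Nat.prime_dvd_prime_iff_eq hq.1 hpp).mp h5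
            rw [h6] at hqw
            linarith
          · exact h5 (hpS q hq.1 h6)
      have h4 := (Finset.card_le_card h3).trans (Finset.card_union_le _ _)
      have h5 := Finset.card_image_le (f := fun n => n + 1)
        (s := (range ⌊x⌋₊).filter (fun n => ∀ q : ℕ, PP q → (q : ℝ) ≤ w → ¬ occ S q n))
      rw [Nat.card_Ioc] at h4
      have h6 : M.card ≤ ⌊w⌋₊ +
          ((range ⌊x⌋₊).filter (fun n => ∀ q : ℕ, PP q → (q : ℝ) ≤ w → ¬ occ S q n)).card := by
        omega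
      have h7 : (M.card : ℝ) ≤ (⌊w⌋₊ : ℝ) +
          (((range ⌊x⌋₊).filter (fun n => ∀ q : ℕ, PP q → (q : ℝ) ≤ w → ¬ occ S q n)).card : ℝ) := by
        exact_mod_cast h6
      have h8 : (⌊w⌋₊ : ℝ) ≤ w := Nat.floor_le hw0
      linarith
    have h3 := hprod S w hw2
    rw [← hAdef] at h3
    have h4 : (⌊x⌋₊ : ℝ) ≤ x := Nat.floor_le hx0.le
    have h5 : C1 * A / (Real.log w) ^ 2 = 4 * K ^ 2 * C1 * A / (Real.log x) ^ 2 := by
      rw [hlogw]
      field_simp
      ring
    have h6 : 2 * (⌊x⌋₊ : ℝ) * (∏ q ∈ pU PP w, (1 - (nu S q : ℝ) / q)) ≤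
        2 * x * (4 * K ^ 2 * C1 * A / (Real.log x) ^ 2) := by
      rw [← h5]
      calc 2 * (⌊x⌋₊ : ℝ) * (∏ q ∈ pU PP w, (1 - (nu S q : ℝ) / q))
          ≤ 2 * (⌊x⌋₊ : ℝ) * (C1 * A / (Real.log w) ^ 2) := by
            apply mul_le_mul_of_nonneg_left h3 (by positivity)
        _ ≤ 2 * x * (C1 * A / (Real.log w) ^ 2) := by
            apply mul_le_mul_of_nonneg_right _ (by positivity)
            linarith
    have h7 : x ^ (1 / 2 : ℝ) ≤ 16 * A * x / (Real.log x) ^ 2 := by
      rw [le_div_iff₀ (by positivity)]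
      have h8 := log_sq_le hx1
      have h9 : x ^ (1 / 2 : ℝ) * x ^ (1 / 2 : ℝ) = x := by
        rw [← Real.rpow_add hx0]
        norm_num
      calc x ^ (1 / 2 : ℝ) * (Real.log x) ^ 2 ≤ x ^ (1 / 2 : ℝ) * (16 * x ^ (1 / 2 : ℝ)) := by gcongr
        _ = 16 * (x ^ (1 / 2 : ℝ) * x ^ (1 / 2 : ℝ)) := by ring
        _ = 16 * 1 * x := by rw [h9]; ring
        _ ≤ 16 * A * x := by gcongr
    rw [hwK] at h1
    calc (M.card : ℝ) ≤ x ^ (1 / 2 : ℝ) + (2 * x * (4 * K ^ 2 * C1 * A / (Real.log x) ^ 2) +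
          1 * x ^ (1 / 2 : ℝ)) := by linarith
      _ ≤ 16 * A * x / (Real.log x) ^ 2 + (2 * x * (4 * K ^ 2 * C1 * A / (Real.log x) ^ 2) +
          16 * A * x / (Real.log x) ^ 2) := by linarith
      _ = (8 * K ^ 2 * C1 + 32) * A * x / (Real.log x) ^ 2 := by ring
      _ ≤ (8 * K ^ 2 * C1 + 32 + (K * Real.log 4) ^ 2) * A * x / (Real.log x) ^ 2 := by
          have h9 : 0 ≤ (K * Real.log 4) ^ 2 := by positivity
          apply div_le_div_of_nonneg_right _ (by positivity)
          apply mul_le_mul_of_nonneg_right _ hx0.le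
          apply mul_le_mul_of_nonneg_right _ hA0.le
          linarith

end Pool.Agent.Helper81.MS
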